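import Pool.Agent.TH.Base

namespace Pool.Agent.TH

open Finset

/-- The interval class of `k` among `2 ^ lam` classes. -/
def cls (μ lam : ℕ) (k : Fin (2 ^ μ)) : ℕ := k.val / 2 ^ (μ - lam)

/-- The row cell: the class of the column together with the row. -/
def rowCell (μ lam : ℕ) (x : Fin (2 ^ μ) × Fin (2 ^ μ)) : ℕ × Fin (2 ^ μ) :=
  (cls μ lam x.1, x.2)

/-- The column cell: the column together with the class of the row. -/
def colCell (μ lam : ℕ) (x : Fin (2 ^ μ) × Fin (2 ^ μ)) : Fin (2 ^ μ) × ℕ :=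
  (x.1, cls μ lam x.2)

/-- The `i`-th element of the class of `k`. -/
def clsElem (μ lam : ℕ) (k : Fin (2 ^ μ)) (i : Fin (2 ^ (μ - lam))) : Fin (2 ^ μ) :=
  if h : k.val / 2 ^ (μ - lam) * 2 ^ (μ - lam) + i.val < 2 ^ μ then
    ⟨k.val / 2 ^ (μ - lam) * 2 ^ (μ - lam) + i.val, h⟩ else k

theorem exists_clsElem {μ lam : ℕ} {k k' : Fin (2 ^ μ)} (h : cls μ lam k = cls μ lam k') :
    ∃ i, clsElem μ lam k i = k' := by
  have hpos : 0 < 2 ^ (μ - lam) := by positivity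
  refine ⟨⟨k'.val % 2 ^ (μ - lam), Nat.mod_lt _ hpos⟩, ?_⟩
  have h1 : k.val / 2 ^ (μ - lam) * 2 ^ (μ - lam) + k'.val % 2 ^ (μ - lam) = k'.val := by
    rw [cls, cls] at h
    rw [h, mul_comm]
    exact Nat.div_add_mod _ _
  rw [clsElem, dif_pos]
  · exact Fin.ext h1
  · simp only [h1]
    exact k'.isLt

theorem num_aux (t : ℕ) (ht : 15 ≤ t) : 8 * (160 * (t + 1) + 1) ≤ 2 ^ t := by
  induction t, ht using Nat.le_induction with
  | base => norm_num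
  | succ t ht ih =>
    have h1 : 2 ^ (t + 1) = 2 * 2 ^ t := by ring
    omega

theorem base_num {L₀ μ lam n : ℕ} (hL : 0 < L₀) (hμ : 600 ≤ μ) (hlam : μ ≤ 20 * lam)
    (hlam' : lam ≤ μ) (hn : n = 4 * L₀ * 2 ^ μ) :
    ((Fintype.card (Fin (2 ^ μ) × Fin (2 ^ μ)) : ℝ) ^ (2 * n)) *
      (Real.exp (-((n : ℝ) ^ 2 / (32 * ((2 ^ (μ / 40) : ℕ) : ℝ) * ((2 ^ (μ - lam) : ℕ) : ℝ)))) +
        (1 / ((2 ^ (μ / 40) : ℕ) : ℝ)) ^ (400 * n)) < 1 := by
  obtain ⟨t, ht⟩ : ∃ t, t = μ / 40 := ⟨_, rfl⟩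
  have ht15 : 15 ≤ t := by omega
  have ht1 : μ < 40 * (t + 1) := by omega
  have ht2 : 40 * t ≤ μ := by omega
  have hlt : 2 * t ≤ lam := by omega
  have hnpos : 0 < n := by rw [hn]; positivity
  have hnR : (1 : ℝ) ≤ n := by exact_mod_cast hnpos
  rw [← ht]
  have hcard : (Fintype.card (Fin (2 ^ μ) × Fin (2 ^ μ)) : ℝ) ^ (2 * n) =
      (2 : ℝ) ^ (4 * μ * n) := by
    rw [Fintype.card_prod, Fintype.card_fin]
    push_cast
    rw [← pow_add, ← pow_mul]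
    congr 1
    ring
  rw [hcard]
  -- the second term
  have h2 : (2 : ℝ) ^ (4 * μ * n) * (1 / ((2 ^ t : ℕ) : ℝ)) ^ (400 * n) ≤ 1 / 4 := by
    push_cast
    rw [one_div, inv_pow, ← pow_mul, ← div_eq_mul_inv, div_le_iff₀ (by positivity)]
    have h3 : (2 : ℝ) ^ (4 * μ * n + 2) ≤ 2 ^ (t * (400 * n)) := by
      apply pow_le_pow_right₀ (by norm_num)
      have h4 : 4 * μ + 2 ≤ t * 400 := by omega
      calc 4 * μ * n + 2 ≤ 4 * μ * n + 2 * n := by omega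
        _ = (4 * μ + 2) * n := by ring
        _ ≤ (t * 400) * n := Nat.mul_le_mul_right _ h4
        _ = t * (400 * n) := by ring
    rw [pow_add] at h3
    linarith
  -- the first term
  have h1 : (2 : ℝ) ^ (4 * μ * n) * Real.exp (-((n : ℝ) ^ 2 /
      (32 * ((2 ^ t : ℕ) : ℝ) * ((2 ^ (μ - lam) : ℕ) : ℝ)))) ≤ 1 / 2 := by
    have h5 : (2 : ℝ) ^ (4 * μ * n) ≤ Real.exp ((4 * μ * n : ℕ) : ℝ) := by
      have : (2 : ℝ) ≤ Real.exp 1 := by
        have := Real.add_one_le_exp (1 : ℝ)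
        linarith
      calc (2 : ℝ) ^ (4 * μ * n) ≤ (Real.exp 1) ^ (4 * μ * n) :=
            pow_le_pow_left₀ (by norm_num) this _
        _ = Real.exp ((4 * μ * n : ℕ) : ℝ) := by
            rw [← Real.exp_nat_mul, mul_one]
    have h6 : ((4 * μ * n : ℕ) : ℝ) + 1 ≤ (n : ℝ) ^ 2 /
        (32 * ((2 ^ t : ℕ) : ℝ) * ((2 ^ (μ - lam) : ℕ) : ℝ)) := by
      push_cast
      rw [le_div_iff₀ (by positivity)]
      have h7 : (2 : ℝ) ^ μ = 2 ^ lam * 2 ^ (μ - lam) := by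
        rw [← pow_add]
        congr 1
        omega
      have h8 : (2 : ℝ) ^ lam = 2 ^ t * 2 ^ t * 2 ^ (lam - 2 * t) := by
        rw [← pow_add, ← pow_add]
        congr 1
        omega
      have h9 : (1 : ℝ) ≤ 2 ^ (lam - 2 * t) := one_le_pow₀ (by norm_num)
      have hL0 : (1 : ℝ) ≤ L₀ := by exact_mod_cast hL
      have h10 : (8 : ℝ) * (160 * (t + 1) + 1) ≤ 2 ^ t := by exact_mod_cast num_aux t ht15
      have hμt : (μ : ℝ) ≤ 40 * (t + 1) := by exact_mod_cast ht1.le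
      have hnn : (n : ℝ) = 4 * L₀ * 2 ^ μ := by rw [hn]; push_cast; ring
      have h11 : (4 * (μ : ℝ) * n + 1) ≤ (160 * (t + 1) + 1) * n := by nlinarith
      have h12 : (0 : ℝ) < 2 ^ t * 2 ^ (μ - lam) := by positivity
      calc (4 * (μ : ℝ) * n + 1) * (32 * 2 ^ t * 2 ^ (μ - lam))
          = (4 * (μ : ℝ) * n + 1) * 32 * (2 ^ t * 2 ^ (μ - lam)) := by ring
        _ ≤ ((160 * (t + 1) + 1) * n) * 32 * (2 ^ t * 2 ^ (μ - lam)) := by
            gcongr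
        _ = 4 * n * (8 * (160 * (t + 1) + 1)) * (2 ^ t * 2 ^ (μ - lam)) := by ring
        _ ≤ 4 * n * 2 ^ t * (2 ^ t * 2 ^ (μ - lam)) := by
            gcongr
        _ = 4 * n * (2 ^ t * 2 ^ t * 1) * 2 ^ (μ - lam) := by ring
        _ ≤ 4 * n * (2 ^ t * 2 ^ t * 2 ^ (lam - 2 * t)) * 2 ^ (μ - lam) := by
            gcongr
        _ = 4 * n * 2 ^ μ := by rw [h7, h8]; ring
        _ ≤ n * (4 * L₀ * 2 ^ μ) := by
            have : (0 : ℝ) ≤ n * (4 * 2 ^ μ) := by positivity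
            nlinarith
        _ = (n : ℝ) ^ 2 := by rw [sq, ← hnn]
    calc (2 : ℝ) ^ (4 * μ * n) * Real.exp (-((n : ℝ) ^ 2 /
          (32 * ((2 ^ t : ℕ) : ℝ) * ((2 ^ (μ - lam) : ℕ) : ℝ))))
        ≤ Real.exp ((4 * μ * n : ℕ) : ℝ) * Real.exp (-(((4 * μ * n : ℕ) : ℝ) + 1)) := by
          apply mul_le_mul h5 _ (Real.exp_pos _).le (Real.exp_pos _).le
          apply Real.exp_le_exp.mpr
          linarith
      _ = Real.exp (-1) := by
          rw [← Real.exp_add]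
          congr 1
          ring
      _ ≤ 1 / 2 := by
          rw [Real.exp_neg, inv_le_comm₀ (Real.exp_pos _) (by norm_num)]
          have := Real.add_one_le_exp (1 : ℝ)
          norm_num
          linarith
  rw [mul_add]
  linarith

/-- The base step for `V = [2^μ] × [2^μ]`. -/
theorem exists_allConflict {L₀ μ lam : ℕ} (hL : 0 < L₀) (hμ : 600 ≤ μ) (hlam : μ ≤ 20 * lam)
    (hlam' : lam ≤ μ)
    (h0 : (Fin (2 ^ μ) × Fin (2 ^ μ)) → (Fin (2 ^ μ) × Fin (2 ^ μ)) →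
      (Fin (2 ^ μ) × Fin (2 ^ μ)))
    (H : ∀ A B : Finset (Fin (2 ^ μ) × Fin (2 ^ μ)), A.card = 4 * L₀ * 2 ^ μ →
      B.card = 4 * L₀ * 2 ^ μ → Disjoint A B →
      15 * (4 * L₀ * 2 ^ μ) ≤ 16 * (A.image (rowCell μ lam)).card →
      15 * (4 * L₀ * 2 ^ μ) ≤ 16 * (A.image (colCell μ lam)).card →
      15 * (4 * L₀ * 2 ^ μ) ≤ 16 * (B.image (rowCell μ lam)).card →
      15 * (4 * L₀ * 2 ^ μ) ≤ 16 * (B.image (colCell μ lam)).card →
      400 * (4 * L₀ * 2 ^ μ) ≤ (confl h0 A B).card ∨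
        400 * (4 * L₀ * 2 ^ μ) ≤ (confl h0 B A).card) :
    ∃ h : (Fin (2 ^ μ) × Fin (2 ^ μ)) → (Fin (2 ^ μ) × Fin (2 ^ μ)) →
      (Fin (2 ^ μ) × Fin (2 ^ μ)), AllConflict h (4 * L₀ * 2 ^ μ) := by
  refine base (rowCell μ lam) (colCell μ lam) (2 ^ (μ - lam)) (2 ^ (μ / 40))
    (4 * L₀ * 2 ^ μ) (400 * (4 * L₀ * 2 ^ μ)) (by positivity) (by positivity)
    (fun x i => (clsElem μ lam x.1 i, x.2)) (fun x i => (x.1, clsElem μ lam x.2 i))
    ?_ ?_ h0 H (base_num hL hμ hlam hlam' rfl)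
  · rintro ⟨k, ρ⟩ ⟨k', ρ'⟩ h
    simp only [rowCell, Prod.mk.injEq] at h
    obtain ⟨i, hi⟩ := exists_clsElem h.1
    exact ⟨i, by simp [hi, h.2]⟩
  · rintro ⟨k, ρ⟩ ⟨k', ρ'⟩ h
    simp only [colCell, Prod.mk.injEq] at h
    obtain ⟨i, hi⟩ := exists_clsElem h.2
    exact ⟨i, by simp [hi, h.1]⟩

end Pool.Agent.TH
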