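import Mathlib

/-!
# Claim 2 of note 2821 (MP_06e2b3_co) in abstract form

`I` = pairs (x-class `X`, z-class `v`), `T i ∈ Fin τ` = the chosen offset in the block.
`U` = pairs (slot, `X'`); `off u` = the offset of the target of the slot, `eff u` = the pairs
`i = (X, v)` such that the row of `v` is effective for `u`; `cell i` = the z-class `v`.
-/

set_option autoImplicit false

namespace Pool.Agent.TH

open Finset

variable {I U S V : Type} [Fintype I] [DecidableEq I] [Fintype U] [DecidableEq U]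
  [DecidableEq S] [Fintype V] [DecidableEq V]

/-- The number of `T` that hit no slot of `Sl` is at most `τ^|I| exp (- Σ |eff u| / τ)`. -/
theorem card_nohit_le {τ : ℕ} (hτ : 0 < τ) (off : U → Fin τ) (eff : U → Finset I)
    (Sl : Finset U)
    (hinj : ∀ u ∈ Sl, ∀ u' ∈ Sl, u ≠ u' → ∀ i, i ∈ eff u → i ∈ eff u' → off u ≠ off u') :
    (((univ : Finset (I → Fin τ)).filter
      (fun T => ∀ u ∈ Sl, ∀ i ∈ eff u, T i ≠ off u)).card : ℝ) ≤
      (τ : ℝ) ^ (Fintype.card I) *
        Real.exp (- ((∑ u ∈ Sl, (eff u).card : ℕ) : ℝ) / τ) := by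
  classical
  set B : I → Finset (Fin τ) := fun i => (Sl.filter (fun u => i ∈ eff u)).image off with hB
  have hBcard : ∀ i, (B i).card = (Sl.filter (fun u => i ∈ eff u)).card := by
    intro i
    apply Finset.card_image_of_injOn
    intro u hu u' hu' h
    rw [Finset.coe_filter] at hu hu'
    by_contra hne
    exact hinj u hu.1 u' hu'.1 hne i hu.2 hu'.2 h
  have hset : (univ : Finset (I → Fin τ)).filter
      (fun T => ∀ u ∈ Sl, ∀ i ∈ eff u, T i ≠ off u) =
      Fintype.piFinset (fun i => (B i)ᶜ) := by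
    ext T
    rw [Finset.mem_filter, Fintype.mem_piFinset]
    constructor
    · rintro ⟨_, h⟩ i
      rw [Finset.mem_compl]
      intro hi
      rw [hB] at hi
      obtain ⟨u, hu, hui⟩ := Finset.mem_image.1 hi
      rw [Finset.mem_filter] at hu
      exact h u hu.1 i hu.2 hui.symm
    · intro h
      refine ⟨Finset.mem_univ _, fun u hu i hi hT => ?_⟩
      have := h i
      rw [Finset.mem_compl] at this
      apply this
      rw [hB]
      exact Finset.mem_image.2 ⟨u, Finset.mem_filter.2 ⟨hu, hi⟩, hT.symm⟩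
  rw [hset, Fintype.card_piFinset]
  have hτR : (0 : ℝ) < τ := by exact_mod_cast hτ
  have h1 : ∀ i, (((B i)ᶜ.card : ℕ) : ℝ) ≤ (τ : ℝ) * Real.exp (-(((B i).card : ℝ)) / τ) := by
    intro i
    rw [Finset.card_compl, Fintype.card_fin]
    have hle : (B i).card ≤ τ := by
      have := Finset.card_le_univ (B i)
      rwa [Fintype.card_fin] at this
    rw [Nat.cast_sub hle]
    have h2 := Real.add_one_le_exp (-(((B i).card : ℝ)) / τ)
    have h3 : (τ : ℝ) * (-(((B i).card : ℝ)) / τ + 1) = τ - (B i).card := by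
      field_simp
      ring
    rw [← h3]
    exact mul_le_mul_of_nonneg_left h2 hτR.le
  have h4 : ((∏ i, (B i)ᶜ.card : ℕ) : ℝ) ≤
      ∏ i : I, ((τ : ℝ) * Real.exp (-(((B i).card : ℝ)) / τ)) := by
    rw [Nat.cast_prod]
    exact Finset.prod_le_prod (fun i _ => Nat.cast_nonneg _) (fun i _ => h1 i)
  refine h4.trans (le_of_eq ?_)
  rw [Finset.prod_mul_distrib, Finset.prod_const, ← Real.exp_sum, Finset.card_univ]
  congr 2
  have h5 : (∑ u ∈ Sl, (eff u).card) = ∑ i : I, (B i).card := by
    have h6 : ∀ i, (B i).card = ∑ u ∈ Sl, if i ∈ eff u then 1 else 0 := by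
      intro i
      rw [hBcard, Finset.card_filter]
    have h7 : ∀ u, (eff u).card = ∑ i : I, if i ∈ eff u then 1 else 0 := by
      intro u
      rw [← Finset.card_filter]
      congr 1
      ext i
      simp
    rw [Finset.sum_congr rfl (fun u _ => h7 u), Finset.sum_comm]
    exact Finset.sum_congr rfl (fun i _ => (h6 i).symm)
  rw [h5]
  push_cast
  rw [neg_div, Finset.sum_div, ← Finset.sum_neg_distrib]
  refine Finset.sum_congr rfl (fun i _ => ?_)
  rw [neg_div]

/-- CLAIM 2, existence form. -/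
theorem claim2 {τ : ℕ} (hτ : 0 < τ) (cell : I → V) (slot : U → S) (off : U → Fin τ)
    (eff : U → Finset I) (v0 s0 W : ℕ)
    (hdist : ∀ u u', slot u ≠ slot u' → ∀ i, i ∈ eff u → i ∈ eff u' → off u ≠ off u')
    (hcount : ((Fintype.card V).choose v0 : ℝ) * ((Fintype.card U).choose s0 : ℝ) *
      Real.exp (-((s0 : ℝ) * W / τ)) < 1) :
    ∃ T : I → Fin τ, ∀ VV : Finset V, VV.card = v0 → ∀ Sl : Finset U, Sl.card = s0 →
      Set.InjOn slot (Sl : Set U) →
      (∀ u ∈ Sl, W ≤ ((eff u).filter (fun i => cell i ∈ VV)).card) →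
      ∃ u ∈ Sl, ∃ i ∈ eff u, cell i ∈ VV ∧ T i = off u := by
  classical
  by_contra hcon
  push Not at hcon
  have hτR : (0 : ℝ) < τ := by exact_mod_cast hτ
  set Pat : Finset (Finset V × Finset U) :=
    ((univ : Finset V).powersetCard v0) ×ˢ ((univ : Finset U).powersetCard s0) with hPat
  set ok : Finset V × Finset U → Prop := fun p =>
    Set.InjOn slot (p.2 : Set U) ∧
      (∀ u ∈ p.2, W ≤ ((eff u).filter (fun i => cell i ∈ p.1)).card) with hok
  set bad : Finset V × Finset U → Finset (I → Fin τ) := fun p =>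
    (univ : Finset (I → Fin τ)).filter
      (fun T => ∀ u ∈ p.2, ∀ i ∈ (eff u).filter (fun i => cell i ∈ p.1), T i ≠ off u) with hbad
  have hcover : (univ : Finset (I → Fin τ)) ⊆ (Pat.filter ok).biUnion bad := by
    intro T _
    obtain ⟨VV, hVV, Sl, hSl, hI, hW, hno⟩ := hcon T
    rw [Finset.mem_biUnion]
    refine ⟨(VV, Sl), ?_, ?_⟩
    · rw [Finset.mem_filter, hPat, Finset.mem_product, Finset.mem_powersetCard,
        Finset.mem_powersetCard]
      exact ⟨⟨⟨Finset.subset_univ _, hVV⟩, ⟨Finset.subset_univ _, hSl⟩⟩, hI, hW⟩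
    · rw [hbad]
      simp only [Finset.mem_filter]
      refine ⟨Finset.mem_univ _, fun u hu i hi => ?_⟩
      exact hno u hu i hi.1 hi.2
  have h1 : (Fintype.card (I → Fin τ) : ℝ) ≤ ∑ p ∈ Pat.filter ok, ((bad p).card : ℝ) := by
    have h2 := (Finset.card_le_card hcover).trans Finset.card_biUnion_le
    rw [Finset.card_univ] at h2
    exact_mod_cast h2
  have h3 : ∀ p ∈ Pat.filter ok, ((bad p).card : ℝ) ≤
      (τ : ℝ) ^ (Fintype.card I) * Real.exp (-((s0 : ℝ) * W / τ)) := by
    intro p hp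
    rw [Finset.mem_filter, hPat, Finset.mem_product, Finset.mem_powersetCard,
      Finset.mem_powersetCard] at hp
    obtain ⟨⟨_, hps⟩, hI, hW⟩ := hp
    have h4 := card_nohit_le hτ off (fun u => (eff u).filter (fun i => cell i ∈ p.1)) p.2
      (by
        intro u hu u' hu' hne i hi hi'
        have hs : slot u ≠ slot u' := fun h => hne (hI hu hu' h)
        exact hdist u u' hs i (Finset.mem_filter.1 hi).1 (Finset.mem_filter.1 hi').1)
    refine h4.trans ?_
    apply mul_le_mul_of_nonneg_left _ (by positivity)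
    apply Real.exp_le_exp.2
    have h5 : (s0 * W : ℕ) ≤ ∑ u ∈ p.2, ((eff u).filter (fun i => cell i ∈ p.1)).card := by
      rw [← hps.2, ← smul_eq_mul]
      exact Finset.card_nsmul_le_sum _ _ _ hW
    have h6 : ((s0 : ℝ) * W) ≤
        ((∑ u ∈ p.2, ((eff u).filter (fun i => cell i ∈ p.1)).card : ℕ) : ℝ) := by
      exact_mod_cast h5
    rw [neg_div, neg_le_neg_iff]
    exact div_le_div_of_nonneg_right h6 hτR.le
  have h7 := h1.trans (Finset.sum_le_sum h3)
  rw [Finset.sum_const, nsmul_eq_mul, Fintype.card_fun, Fintype.card_fin] at h7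
  have h8 : ((Pat.filter ok).card : ℝ) ≤
      ((Fintype.card V).choose v0 : ℝ) * ((Fintype.card U).choose s0 : ℝ) := by
    have h9 := Finset.card_filter_le Pat ok
    rw [hPat, Finset.card_product, Finset.card_powersetCard, Finset.card_powersetCard,
      Finset.card_univ, Finset.card_univ] at h9
    exact_mod_cast h9
  have hpow : (0 : ℝ) < (τ : ℝ) ^ (Fintype.card I) := by positivity
  push_cast at h7
  have h10 : (τ : ℝ) ^ (Fintype.card I) ≤
      (((Fintype.card V).choose v0 : ℝ) * ((Fintype.card U).choose s0 : ℝ)) *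
        ((τ : ℝ) ^ (Fintype.card I) * Real.exp (-((s0 : ℝ) * W / τ))) :=
    h7.trans (mul_le_mul_of_nonneg_right h8 (by positivity))
  have h11 : (((Fintype.card V).choose v0 : ℝ) * ((Fintype.card U).choose s0 : ℝ)) *
        ((τ : ℝ) ^ (Fintype.card I) * Real.exp (-((s0 : ℝ) * W / τ))) =
      (τ : ℝ) ^ (Fintype.card I) * (((Fintype.card V).choose v0 : ℝ) *
        ((Fintype.card U).choose s0 : ℝ) * Real.exp (-((s0 : ℝ) * W / τ))) := by ring
  rw [h11] at h10
  have h12 := mul_lt_mul_of_pos_left hcount hpow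
  rw [mul_one] at h12
  exact absurd h10 (not_le.2 h12)

end Pool.Agent.TH
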