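import Pool.Agent.TH.Star

namespace Pool.Agent.TH

open Finset

/-- `κ_e = 2 ^ kk k0 e`. -/
def kk (k0 e : ℕ) : ℕ := k0 * 2 ^ e

/-- `Λ_e = κ_e ^ 20 = 2 ^ lam k0 e`. -/
def lam (k0 e : ℕ) : ℕ := 20 * kk k0 e

/-- `n = 4 Λ_0 M`. -/
def nn (k0 μ : ℕ) : ℕ := 4 * 2 ^ lam k0 0 * 2 ^ μ

/-- What remains to be shown: a map `h0` with many conflict pairs at every level at which a set
fails to be spread. -/
def GameStat (k0 μ E : ℕ) : Prop :=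
  ∃ h0 : (Fin (2 ^ μ) × Fin (2 ^ μ)) → (Fin (2 ^ μ) × Fin (2 ^ μ)) →
      (Fin (2 ^ μ) × Fin (2 ^ μ)),
    ∀ e < E, ∀ P Q : Finset (Fin (2 ^ μ) × Fin (2 ^ μ)),
      P.card = nn k0 μ → Q.card = nn k0 μ → Disjoint P Q →
      Spr μ (lam k0 (e + 1)) (nn k0 μ) (dft (nn k0 μ) E (e + 1)) P →
      Spr μ (lam k0 (e + 1)) (nn k0 μ) (dft (nn k0 μ) E (e + 1)) Q →
      ¬ Spr μ (lam k0 e) (nn k0 μ) (dft (nn k0 μ) E (e + 1) + nn k0 μ / 2 ^ (e + 4)) P →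
      400 * nn k0 μ ≤ (confl h0 P Q).card

theorem allConflict_of_gameStat {k0 μ E : ℕ} (hμ : 600 ≤ μ) (hE : μ ≤ 20 * lam k0 E)
    (hE' : lam k0 E ≤ μ) (hG : GameStat k0 μ E) :
    ∃ h : (Fin (2 ^ μ) × Fin (2 ^ μ)) → (Fin (2 ^ μ) × Fin (2 ^ μ)) →
      (Fin (2 ^ μ) × Fin (2 ^ μ)), AllConflict h (nn k0 μ) := by
  obtain ⟨h0, hG⟩ := hG
  refine exists_allConflict (L₀ := 2 ^ lam k0 0) (lam := lam k0 E) (by positivity) hμ hE hE' h0 ?_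
  intro A B hA hB hAB h1 h2 h3 h4
  change A.card = nn k0 μ at hA
  change B.card = nn k0 μ at hB
  change 15 * nn k0 μ ≤ _ at h1 h2 h3 h4
  have hlam0 : lam k0 0 ≤ μ := by
    refine le_trans ?_ hE'
    simp only [lam, kk]
    have : 1 ≤ 2 ^ E := Nat.one_le_two_pow
    nlinarith [Nat.zero_le k0]
  obtain ⟨e, he, hA', hB', hF⟩ := descent (μ := μ) (E := E) (n := nn k0 μ) (lam k0) hlam0 rfl
    (A := A) (B := B) ⟨by omega, by omega⟩ ⟨by omega, by omega⟩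
  rcases hF with hF | hF
  · left
    exact hG e he A B hA hB hAB hA' hB' hF
  · right
    exact hG e he B A hB hA hAB.symm hB' hA' hF

theorem exists_top {k0 μ : ℕ} (hk : 0 < k0) (hμ : 400 * k0 < μ) :
    ∃ E, 0 < E ∧ μ ≤ 20 * lam k0 E ∧ 10 * lam k0 E ≤ μ := by
  have hex : ∃ e, μ ≤ 20 * lam k0 e := by
    refine ⟨μ, ?_⟩
    simp only [lam, kk]
    have : μ < 2 ^ μ := Nat.lt_two_pow_self
    nlinarith
  classical
  refine ⟨Nat.find hex, ?_, Nat.find_spec hex, ?_⟩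
  · rw [Nat.find_pos]
    simp only [lam, kk, pow_zero, mul_one]
    omega
  · have hpos : 0 < Nat.find hex := by
      rw [Nat.find_pos]
      simp only [lam, kk, pow_zero, mul_one]
      omega
    obtain ⟨e, he⟩ : ∃ e, Nat.find hex = e + 1 := ⟨Nat.find hex - 1, by omega⟩
    have h1 := Nat.find_min hex (m := e) (by omega)
    rw [he]
    have h2 : k0 * 2 ^ (e + 1) = 2 * (k0 * 2 ^ e) := by ring
    simp only [lam, kk] at h1 ⊢
    rw [h2]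
    omega

/-- The frame of the proof. -/
theorem hstat_of_gameStat {k0 μ₁ : ℕ} (hk : 0 < k0)
    (hG : ∀ μ E : ℕ, μ₁ ≤ μ → 0 < E → μ ≤ 20 * lam k0 E → 10 * lam k0 E ≤ μ →
      GameStat k0 μ E) : HStat (2 ^ lam k0 0) := by
  refine ⟨μ₁ + 600 + 400 * k0 + 1, fun μ hμ => ?_⟩
  obtain ⟨E, hE0, hE1, hE2⟩ := exists_top (k0 := k0) (μ := μ) hk (by omega)
  exact allConflict_of_gameStat (by omega) hE1 (by omega) (hG μ E (by omega) hE0 hE1 hE2)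

end Pool.Agent.TH
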