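import Mathlib

/-!
# Peeling (degeneracy) for a finite family of finite sets

helper94, for MP_06e2b3_co (note 2821, section 2 (a), (b)).
-/

namespace Pool.Agent.TH

open Finset

/-- `peelShared F B b`: the elements of `B b` which lie in another member of the family `F`. -/
def peelShared {I R : Type*} [DecidableEq I] [DecidableEq R] (F : Finset I) (B : I → Finset R)
    (b : I) : Finset R :=
  (B b).filter (fun ρ => ∃ b' ∈ F, b' ≠ b ∧ ρ ∈ B b')

/-- Degeneracy: if in every nonempty subfamily the members have in total at most `q` times the size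
of the subfamily shared elements, then the elements can be given to the members such that every
member loses at most `q` elements. -/
theorem peel_exists {I R : Type*} [DecidableEq I] [DecidableEq R] (q : ℕ) (B : I → Finset R)
    (F : Finset I)
    (h : ∀ F' ⊆ F, F'.Nonempty → ∑ b ∈ F', (peelShared F' B b).card ≤ q * F'.card) :
    ∃ s : R → Option I, ∀ b ∈ F, ((B b).filter (fun ρ => s ρ ≠ some b)).card ≤ q := by
  classical
  induction F using Finset.strongInduction with
  | H F ih =>
    rcases F.eq_empty_or_nonempty with rfl | hne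
    · exact ⟨fun _ => none, by simp⟩
    · have h1 := h F (Subset.refl F) hne
      have h2 : ∃ b ∈ F, (peelShared F B b).card ≤ q := by
        by_contra hcon
        push Not at hcon
        have h3 : ∑ b ∈ F, (q + 1) ≤ ∑ b ∈ F, (peelShared F B b).card :=
          Finset.sum_le_sum (fun b hb => hcon b hb)
        rw [Finset.sum_const, smul_eq_mul] at h3
        have h4 : 0 < F.card := hne.card_pos
        nlinarith
      obtain ⟨b0, hb0, hq⟩ := h2
      obtain ⟨s1, hs1⟩ := ih (F.erase b0) (Finset.erase_ssubset hb0)
        (fun F' hF' hne' => h F' (hF'.trans (Finset.erase_subset b0 F)) hne')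
      refine ⟨fun ρ => if ∃ b ∈ F.erase b0, ρ ∈ B b then s1 ρ else some b0, ?_⟩
      intro b hb
      by_cases hbb : b = b0
      · subst hbb
        refine le_trans (Finset.card_le_card ?_) hq
        intro ρ hρ
        rw [Finset.mem_filter] at hρ
        obtain ⟨hρ1, hρ2⟩ := hρ
        by_cases hc : ∃ b' ∈ F.erase b, ρ ∈ B b'
        · obtain ⟨b', hb', hρ'⟩ := hc
          rw [peelShared, Finset.mem_filter]
          exact ⟨hρ1, b', Finset.mem_of_mem_erase hb', Finset.ne_of_mem_erase hb', hρ'⟩
        · simp only [if_neg hc] at hρ2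
          exact absurd rfl hρ2
      · have hbe : b ∈ F.erase b0 := Finset.mem_erase.mpr ⟨hbb, hb⟩
        refine le_trans (Finset.card_le_card ?_) (hs1 b hbe)
        intro ρ hρ
        rw [Finset.mem_filter] at hρ ⊢
        obtain ⟨hρ1, hρ2⟩ := hρ
        refine ⟨hρ1, ?_⟩
        have hc : ∃ b' ∈ F.erase b0, ρ ∈ B b' := ⟨b, hbe, hρ1⟩
        simp only [if_pos hc] at hρ2
        exact hρ2

/-- Multiplicity of `ρ` in the family `F`. -/
def peelMult {I R : Type*} [DecidableEq I] [DecidableEq R] (F : Finset I) (B : I → Finset R)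
    (ρ : R) : ℕ :=
  (F.filter (fun b => ρ ∈ B b)).card

/-- The total number of shared elements is at most twice the total excess. -/
theorem peel_shared_le {I R : Type*} [DecidableEq I] [DecidableEq R] [Fintype R]
    (B : I → Finset R) (F : Finset I) :
    ∑ b ∈ F, (peelShared F B b).card ≤ 2 * ∑ ρ : R, (peelMult F B ρ - 1) := by
  classical
  have h1 : ∀ b ∈ F, (peelShared F B b).card =
      ∑ ρ : R, if ρ ∈ B b ∧ 2 ≤ peelMult F B ρ then 1 else 0 := by
    intro b hb
    rw [Finset.sum_boole]
    simp only [Nat.cast_id]
    apply congrArg Finset.card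
    ext ρ
    simp only [peelShared, Finset.mem_filter, Finset.mem_univ, true_and]
    constructor
    · rintro ⟨hρ, b', hb', hne, hρ'⟩
      refine ⟨hρ, ?_⟩
      have : ({b, b'} : Finset I) ⊆ F.filter (fun b => ρ ∈ B b) := by
        intro c hc
        rw [Finset.mem_insert, Finset.mem_singleton] at hc
        rw [Finset.mem_filter]
        rcases hc with rfl | rfl
        · exact ⟨hb, hρ⟩
        · exact ⟨hb', hρ'⟩
      calc 2 = ({b, b'} : Finset I).card := (Finset.card_pair (Ne.symm hne)).symm
        _ ≤ _ := Finset.card_le_card this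
    · rintro ⟨hρ, h2⟩
      refine ⟨hρ, ?_⟩
      by_contra hcon
      push Not at hcon
      have : F.filter (fun b => ρ ∈ B b) ⊆ {b} := by
        intro c hc
        rw [Finset.mem_filter] at hc
        rw [Finset.mem_singleton]
        by_contra hcb
        exact hcon c hc.1 hcb hc.2
      have h3 := Finset.card_le_card this
      rw [Finset.card_singleton] at h3
      unfold peelMult at h2
      omega
  rw [Finset.sum_congr rfl h1, Finset.sum_comm, Finset.mul_sum]
  refine Finset.sum_le_sum (fun ρ _ => ?_)
  by_cases h2 : 2 ≤ peelMult F B ρ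
  · have : ∑ b ∈ F, (if ρ ∈ B b ∧ 2 ≤ peelMult F B ρ then 1 else 0) = peelMult F B ρ := by
      simp only [h2, and_true]
      rw [Finset.sum_boole]
      simp [peelMult]
    rw [this]
    omega
  · have : ∑ b ∈ F, (if ρ ∈ B b ∧ 2 ≤ peelMult F B ρ then 1 else 0) = 0 := by
      simp [h2]
    rw [this]
    omega

/-- Peeling from a bound on the excess: `q'` is twice the excess constant `q`. -/
theorem peel_of_excess {I R : Type*} [DecidableEq I] [DecidableEq R] [Fintype R] (q : ℕ)
    (B : I → Finset R) (F : Finset I)
    (h : ∀ F' ⊆ F, F'.Nonempty → ∑ ρ : R, (peelMult F' B ρ - 1) ≤ q * F'.card) :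
    ∃ s : R → Option I, ∀ b ∈ F, ((B b).filter (fun ρ => s ρ ≠ some b)).card ≤ 2 * q := by
  refine peel_exists (2 * q) B F (fun F' hF' hne => ?_)
  refine le_trans (peel_shared_le B F') ?_
  have := h F' hF' hne
  nlinarith

end Pool.Agent.TH
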