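import Mathlib

/-!
# Numerical part of the peeling lemma (note 2821, Lemma P (c))

helper94, for MP_06e2b3_co.
-/

namespace Pool.Agent.TH

open Finset

theorem peelnum_four_le {κ : ℕ → ℝ} (h0 : 4 ≤ κ 0) (h : ∀ e, κ (e + 1) = κ e ^ 2) :
    ∀ e, 4 ≤ κ e := by
  intro e
  induction e with
  | zero => exact h0
  | succ e ih => rw [h]; nlinarith

theorem peelnum_mono {κ : ℕ → ℝ} (h0 : 4 ≤ κ 0) (h : ∀ e, κ (e + 1) = κ e ^ 2) :
    Monotone κ := by
  refine monotone_nat_of_le_succ (fun e => ?_)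
  have := peelnum_four_le h0 h e
  rw [h]; nlinarith

theorem peelnum_geom {κ : ℕ → ℝ} (h0 : 4 ≤ κ 0) (h : ∀ e, κ (e + 1) = κ e ^ 2) :
    ∀ e, 4 * 2 ^ e ≤ κ e := by
  intro e
  induction e with
  | zero => simpa using h0
  | succ e ih =>
    have := peelnum_four_le h0 h e
    rw [h, pow_succ]
    nlinarith

theorem peelnum_sum_inv {κ : ℕ → ℝ} (h0 : 4 ≤ κ 0) (h : ∀ e, κ (e + 1) = κ e ^ 2) (E : ℕ) :
    ∑ e ∈ range E, 1 / κ e ≤ 1 / 2 := by
  have h1 : ∀ e ∈ range E, 1 / κ e ≤ (1 / 4) * (1 / 2 : ℝ) ^ e := by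
    intro e _
    have h2 := peelnum_geom h0 h e
    have h3 : (0 : ℝ) < 4 * 2 ^ e := by positivity
    calc 1 / κ e ≤ 1 / (4 * 2 ^ e) := one_div_le_one_div_of_le h3 h2
      _ = (1 / 4) * (1 / 2 : ℝ) ^ e := by
        rw [one_div_pow]; field_simp
  refine le_trans (Finset.sum_le_sum h1) ?_
  rw [← Finset.mul_sum]
  have h4 : ∑ e ∈ range E, (1 / 2 : ℝ) ^ e ≤ 2 := sum_geometric_two_le E
  linarith

/-- First numerical inequality. -/
theorem peelnum_one {κ : ℕ → ℝ} (h0 : 4 ≤ κ 0) (h : ∀ e, κ (e + 1) = κ e ^ 2) (E : ℕ)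
    {M f σ : ℝ} (hM : 0 < M) (fe : ℕ → ℝ) (hfe : ∀ e, 0 ≤ fe e)
    (hfM : ∀ e < E, fe e * κ e ^ 62 ≤ 2 * M) (hf : ∑ e ∈ range E, fe e = f)
    (hσ : 0 < σ) (hσ16 : σ ^ 16 = f / M) :
    (1 / σ) * ∑ e ∈ range E, fe e * κ e ^ 46 / M ≤ 1 := by
  have hκ4 := peelnum_four_le h0 h
  have hle : ∀ e ∈ range E, fe e * κ e ^ 46 / M ≤ 2 * σ * (1 / κ e) := by
    intro e he
    have heE := Finset.mem_range.mp he
    have hk := hκ4 e
    have hk0 : 0 < κ e := by linarith
    have hk1 : 1 ≤ κ e := by linarith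
    have hfef : fe e ≤ f := by
      rw [← hf]
      exact Finset.single_le_sum (fun e _ => hfe e) he
    by_cases hc : 1 / κ e ^ 15 ≤ σ
    · have h1 : fe e * κ e ^ 46 / M ≤ 2 / κ e ^ 16 := by
        rw [div_le_div_iff₀ hM (by positivity)]
        calc fe e * κ e ^ 46 * κ e ^ 16 = fe e * κ e ^ 62 := by ring
          _ ≤ 2 * M := hfM e heE
      refine le_trans h1 ?_
      have h2 : 2 / κ e ^ 16 = 2 * (1 / κ e ^ 15) * (1 / κ e) := by
        field_simp
      rw [h2]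
      have : 0 ≤ 1 / κ e := by positivity
      nlinarith
    · push Not at hc
      have h1 : fe e * κ e ^ 46 / M ≤ κ e ^ 46 * σ ^ 16 := by
        rw [hσ16]
        have : fe e * κ e ^ 46 ≤ f * κ e ^ 46 := mul_le_mul_of_nonneg_right hfef (by positivity)
        calc fe e * κ e ^ 46 / M ≤ f * κ e ^ 46 / M := div_le_div_of_nonneg_right this hM.le
          _ = _ := by ring
      refine le_trans h1 ?_
      have h2 : σ ^ 15 ≤ (1 / κ e ^ 15) ^ 15 := pow_le_pow_left₀ hσ.le hc.le 15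
      have h3 : κ e ^ 46 * (1 / κ e ^ 15) ^ 15 ≤ 1 / κ e := by
        have h5 : (1 / κ e ^ 15) ^ 15 = 1 / κ e ^ 225 := by
          rw [div_pow, one_pow, ← pow_mul]
        rw [h5, mul_one_div, div_le_div_iff₀ (by positivity) hk0, one_mul]
        calc κ e ^ 46 * κ e = κ e ^ 47 := by ring
          _ ≤ κ e ^ 225 := pow_le_pow_right₀ hk1 (by norm_num)
      calc κ e ^ 46 * σ ^ 16 = κ e ^ 46 * σ ^ 15 * σ := by ring
        _ ≤ κ e ^ 46 * (1 / κ e ^ 15) ^ 15 * σ := by
            refine mul_le_mul_of_nonneg_right ?_ hσ.le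
            exact mul_le_mul_of_nonneg_left h2 (by positivity)
        _ ≤ 1 / κ e * σ := mul_le_mul_of_nonneg_right h3 hσ.le
        _ ≤ 2 * σ * (1 / κ e) := by
            have : 0 ≤ 1 / κ e := by positivity
            nlinarith
  have hsum := Finset.sum_le_sum hle
  rw [← Finset.mul_sum] at hsum
  have hinv := peelnum_sum_inv h0 h E
  rw [one_div, inv_mul_le_iff₀ hσ]
  nlinarith

/-- Second numerical inequality. -/
theorem peelnum_two {κ : ℕ → ℝ} (h0 : 4 ≤ κ 0) (h : ∀ e, κ (e + 1) = κ e ^ 2) (E : ℕ)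
    {M f σ : ℝ} (hM : 0 < M) (fe : ℕ → ℝ) (hfe : ∀ e, 0 ≤ fe e)
    (hfM : ∀ e < E, fe e * κ e ^ 62 ≤ 2 * M) (hf : ∑ e ∈ range E, fe e = f)
    (hσ : 0 < σ) (hσ16 : σ ^ 16 = f / M) :
    Real.exp 1 * (1 / σ) * ∑ e2 ∈ range E, ∑ e1 ∈ range (e2 - 1),
      (fe e1 * κ e1 ^ 46 / M) * (fe e2 * κ e2 ^ 46 / M) ≤ f / M := by
  have hκ4 := peelnum_four_le h0 h
  have hmono := peelnum_mono h0 h
  have hf0 : 0 ≤ f := by rw [← hf]; exact Finset.sum_nonneg (fun e _ => hfe e)
  set S : ℝ := f / M with hS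
  have hS0 : 0 ≤ S := by positivity
  have hkey : ∀ i, i + 2 < E → ∑ e1 ∈ range (i + 2 - 1),
      (fe e1 * κ e1 ^ 46 / M) * (fe (i + 2) * κ (i + 2) ^ 46 / M) ≤
      2 * S * σ * ((1 / 4) * (1 / κ i)) := by
    intro i hi
    have hk := hκ4 i
    set k := κ i with hkdef
    have hk0 : 0 < k := by linarith
    have hk1 : 1 ≤ k := by linarith
    have hk2 : κ (i + 2) = k ^ 4 := by
      rw [h (i + 1), h i]; ring
    rw [← Finset.sum_mul]
    have hA : ∑ e1 ∈ range (i + 2 - 1), fe e1 * κ e1 ^ 46 / M ≤ k ^ 46 * S := by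
      have h1 : ∀ e1 ∈ range (i + 2 - 1), fe e1 * κ e1 ^ 46 / M ≤ fe e1 * (k ^ 46 / M) := by
        intro e1 he1
        rw [Finset.mem_range] at he1
        have h2 : κ e1 ≤ k := hmono (by omega)
        have h3 : 0 ≤ κ e1 := by have := hκ4 e1; linarith
        have h4 : κ e1 ^ 46 ≤ k ^ 46 := pow_le_pow_left₀ h3 h2 46
        rw [mul_div_assoc]
        refine mul_le_mul_of_nonneg_left ?_ (hfe e1)
        exact div_le_div_of_nonneg_right h4 hM.le
      refine le_trans (Finset.sum_le_sum h1) ?_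
      rw [← Finset.sum_mul]
      have h5 : ∑ e1 ∈ range (i + 2 - 1), fe e1 ≤ f := by
        rw [← hf]
        refine Finset.sum_le_sum_of_subset_of_nonneg ?_ (fun e _ _ => hfe e)
        intro e he
        rw [Finset.mem_range] at he ⊢
        omega
      calc (∑ e1 ∈ range (i + 2 - 1), fe e1) * (k ^ 46 / M) ≤ f * (k ^ 46 / M) :=
            mul_le_mul_of_nonneg_right h5 (by positivity)
        _ = k ^ 46 * S := by rw [hS]; ring
    have hfef : fe (i + 2) ≤ f := by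
      rw [← hf]
      exact Finset.single_le_sum (fun e _ => hfe e) (Finset.mem_range.mpr hi)
    have ha0 : 0 ≤ fe (i + 2) * κ (i + 2) ^ 46 / M := by
      have := hfe (i + 2)
      rw [hk2]
      positivity
    refine le_trans (mul_le_mul_of_nonneg_right hA ha0) ?_
    have hk3 : 1 / k ≤ 1 / 4 := one_div_le_one_div_of_le (by norm_num) hk
    have hgoal2 : 2 * S * σ * (1 / k ^ 2) ≤ 2 * S * σ * ((1 / 4) * (1 / k)) := by
      refine mul_le_mul_of_nonneg_left ?_ (by positivity)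
      have : 1 / k ^ 2 = (1 / k) * (1 / k) := by rw [pow_two]; field_simp
      rw [this]
      exact mul_le_mul_of_nonneg_right hk3 (by positivity)
    refine le_trans ?_ hgoal2
    by_cases hc : 1 / k ^ 16 ≤ σ
    · have h1 : fe (i + 2) * κ (i + 2) ^ 46 / M ≤ 2 / k ^ 64 := by
        rw [div_le_div_iff₀ hM (by positivity)]
        have h2 := hfM (i + 2) hi
        rw [hk2] at h2 ⊢
        calc fe (i + 2) * (k ^ 4) ^ 46 * k ^ 64 = fe (i + 2) * (k ^ 4) ^ 62 := by ring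
          _ ≤ 2 * M := h2
      calc k ^ 46 * S * (fe (i + 2) * κ (i + 2) ^ 46 / M) ≤ k ^ 46 * S * (2 / k ^ 64) :=
            mul_le_mul_of_nonneg_left h1 (by positivity)
        _ = 2 * S * (1 / k ^ 16) * (1 / k ^ 2) := by field_simp
        _ ≤ 2 * S * σ * (1 / k ^ 2) := by
            refine mul_le_mul_of_nonneg_right ?_ (by positivity)
            exact mul_le_mul_of_nonneg_left hc (by positivity)
    · push Not at hc
      have h1 : fe (i + 2) * κ (i + 2) ^ 46 / M ≤ k ^ 184 * σ ^ 16 := by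
        rw [hσ16, hk2]
        have : fe (i + 2) * (k ^ 4) ^ 46 ≤ f * (k ^ 4) ^ 46 :=
          mul_le_mul_of_nonneg_right hfef (by positivity)
        calc fe (i + 2) * (k ^ 4) ^ 46 / M ≤ f * (k ^ 4) ^ 46 / M :=
              div_le_div_of_nonneg_right this hM.le
          _ = k ^ 184 * S := by rw [hS]; ring
      have h2 : σ ^ 15 ≤ (1 / k ^ 16) ^ 15 := pow_le_pow_left₀ hσ.le hc.le 15
      have h3 : k ^ 230 * (1 / k ^ 16) ^ 15 ≤ 1 / k ^ 2 := by
        have h5 : (1 / k ^ 16) ^ 15 = 1 / k ^ 240 := by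
          rw [div_pow, one_pow, ← pow_mul]
        rw [h5, mul_one_div, div_le_div_iff₀ (by positivity) (by positivity), one_mul]
        calc k ^ 230 * k ^ 2 = k ^ 232 := by ring
          _ ≤ k ^ 240 := pow_le_pow_right₀ hk1 (by norm_num)
      calc k ^ 46 * S * (fe (i + 2) * κ (i + 2) ^ 46 / M) ≤ k ^ 46 * S * (k ^ 184 * σ ^ 16) :=
            mul_le_mul_of_nonneg_left h1 (by positivity)
        _ = S * σ * (k ^ 230 * σ ^ 15) := by ring
        _ ≤ S * σ * (k ^ 230 * (1 / k ^ 16) ^ 15) := by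
            refine mul_le_mul_of_nonneg_left ?_ (by positivity)
            exact mul_le_mul_of_nonneg_left h2 (by positivity)
        _ ≤ S * σ * (1 / k ^ 2) := mul_le_mul_of_nonneg_left h3 (by positivity)
        _ ≤ 2 * S * σ * (1 / k ^ 2) := by
            refine mul_le_mul_of_nonneg_right ?_ (by positivity)
            nlinarith [mul_nonneg hS0 hσ.le]
  have hsum : ∑ e2 ∈ range E, ∑ e1 ∈ range (e2 - 1),
      (fe e1 * κ e1 ^ 46 / M) * (fe e2 * κ e2 ^ 46 / M) ≤ S * σ / 4 := by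
    rcases Nat.lt_or_ge E 2 with hE | hE
    · have : ∀ e2 ∈ range E, ∑ e1 ∈ range (e2 - 1),
          (fe e1 * κ e1 ^ 46 / M) * (fe e2 * κ e2 ^ 46 / M) = 0 := by
        intro e2 he2
        rw [Finset.mem_range] at he2
        have : e2 - 1 = 0 := by omega
        rw [this]; simp
      rw [Finset.sum_eq_zero this]
      positivity
    · obtain ⟨n, rfl⟩ : ∃ n, E = n + 2 := ⟨E - 2, by omega⟩
      rw [Finset.sum_range_succ', Finset.sum_range_succ']
      have h1 : ∑ i ∈ range n, ∑ e1 ∈ range (i + 1 + 1 - 1),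
          (fe e1 * κ e1 ^ 46 / M) * (fe (i + 1 + 1) * κ (i + 1 + 1) ^ 46 / M) ≤
          ∑ i ∈ range n, 2 * S * σ * ((1 / 4) * (1 / κ i)) := by
        refine Finset.sum_le_sum (fun i hi => ?_)
        exact hkey i (by have := Finset.mem_range.mp hi; omega)
      have h2 : ∑ i ∈ range n, 2 * S * σ * ((1 / 4) * (1 / κ i)) ≤ S * σ / 4 := by
        rw [← Finset.mul_sum, ← Finset.mul_sum]
        have := peelnum_sum_inv h0 h n
        have h3 : 0 ≤ S * σ := by positivity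
        nlinarith
      simp only [Nat.zero_add, Nat.sub_self, Finset.range_zero, Finset.sum_empty, add_zero,
        Nat.zero_sub]
      exact le_trans h1 h2
  have hexp : Real.exp 1 < 4 := by
    have := Real.exp_one_lt_d9
    linarith
  have hexp0 : 0 < Real.exp 1 := Real.exp_pos 1
  calc Real.exp 1 * (1 / σ) * _ ≤ Real.exp 1 * (1 / σ) * (S * σ / 4) :=
        mul_le_mul_of_nonneg_left hsum (by positivity)
    _ = Real.exp 1 / 4 * S := by field_simp
    _ ≤ 1 * S := mul_le_mul_of_nonneg_right (by linarith) hS0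
    _ = S := one_mul S

end Pool.Agent.TH
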