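import Mathlib
import Pool.Agent.TH.Peel

/-!
# The probabilistic part of the peeling lemma (note 2821, Lemma P (c))

helper94, for MP_06e2b3_co.
-/

namespace Pool.Agent.TH

open Finset

/-- A product of functions of distinct coordinates, summed over all functions. -/
theorem peel_sum_prod_chain {ι Y : Type*} [Fintype ι] [DecidableEq ι] [Fintype Y] [Nonempty Y]
    (S : Finset ℕ) (X : ℕ → ι) (hX : Set.InjOn X (S : Set ℕ)) (φ : ℕ → Y → ℝ) :
    ∑ b : ι → Y, ∏ e ∈ S, φ e (b (X e)) =
      (∏ e ∈ S, ((∑ y, φ e y) / (Fintype.card Y : ℝ))) * (Fintype.card Y : ℝ) ^ (Fintype.card ι) := by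
  classical
  have hY : (Fintype.card Y : ℝ) ≠ 0 := by
    have : 0 < Fintype.card Y := Fintype.card_pos
    positivity
  have h1 : ∀ b : ι → Y, ∏ e ∈ S, φ e (b (X e)) =
      ∏ i : ι, ∏ e ∈ S.filter (fun e => X e = i), φ e (b i) := by
    intro b
    rw [← Finset.prod_fiberwise_of_maps_to (s := S) (t := (univ : Finset ι)) (g := X)
      (fun x _ => Finset.mem_univ _)]
    refine Finset.prod_congr rfl (fun i _ => Finset.prod_congr rfl (fun e he => ?_))
    rw [(Finset.mem_filter.mp he).2]
  rw [Finset.sum_congr rfl (fun b _ => h1 b)]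
  have h2 := Finset.prod_univ_sum (fun _ : ι => (univ : Finset Y))
    (fun (i : ι) (y : Y) => ∏ e ∈ S.filter (fun e => X e = i), φ e y)
  rw [Fintype.piFinset_univ] at h2
  rw [← h2]
  have h3 : ∀ i : ι, (∑ y : Y, ∏ e ∈ S.filter (fun e => X e = i), φ e y) =
      (∏ e ∈ S.filter (fun e => X e = i), ((∑ y, φ e y) / (Fintype.card Y : ℝ))) *
        (Fintype.card Y : ℝ) := by
    intro i
    by_cases hi : ∃ e ∈ S, X e = i
    · obtain ⟨e, he, hei⟩ := hi
      have hf : S.filter (fun e => X e = i) = {e} := by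
        ext e'
        rw [Finset.mem_filter, Finset.mem_singleton]
        constructor
        · rintro ⟨h1, h2⟩
          exact hX h1 he (h2.trans hei.symm)
        · rintro rfl
          exact ⟨he, hei⟩
      rw [hf]
      simp only [Finset.prod_singleton]
      field_simp
    · have hf : S.filter (fun e => X e = i) = ∅ := by
        rw [Finset.filter_eq_empty_iff]
        intro e he hei
        exact hi ⟨e, he, hei⟩
      rw [hf]
      simp
  rw [Finset.prod_congr rfl (fun i _ => h3 i), Finset.prod_mul_distrib, Finset.prod_const,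
    Finset.card_univ]
  congr 1
  exact Finset.prod_fiberwise_of_maps_to (fun x _ => Finset.mem_univ _) _

/-- The pointwise bound for `z ^ (#K - 1)`, `K` without adjacent elements. -/
theorem peel_pointwise (E : ℕ) (P : ℕ → Prop) [DecidablePred P] (K : Finset ℕ)
    (hK : K ⊆ range E) (hP : ∀ e ∈ K, P e) (hadj : ∀ e ∈ K, e + 1 ∉ K) (z : ℝ) (hz : 1 ≤ z) :
    z ^ (K.card - 1) ≤ 1 + ∑ e2 ∈ range E, ∑ e1 ∈ range (e2 - 1),
      ((if P e1 then (1 : ℝ) else 0) * ((if P e2 then (1 : ℝ) else 0) *
        ∏ e ∈ (range E).filter (fun e => e2 < e), (1 + z * (if P e then (1 : ℝ) else 0)))) * z := by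
  classical
  have hz0 : (0 : ℝ) ≤ z := le_trans zero_le_one hz
  have hprod : ∀ e2 : ℕ, (0 : ℝ) ≤ ∏ e ∈ (range E).filter (fun e => e2 < e),
      (1 + z * (if P e then (1 : ℝ) else 0)) := by
    intro e2
    refine Finset.prod_nonneg (fun e _ => ?_)
    split_ifs <;> nlinarith
  have hterm : ∀ e2 e1 : ℕ, (0 : ℝ) ≤ ((if P e1 then (1 : ℝ) else 0) *
      ((if P e2 then (1 : ℝ) else 0) *
        ∏ e ∈ (range E).filter (fun e => e2 < e), (1 + z * (if P e then (1 : ℝ) else 0)))) * z := by
    intro e2 e1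
    refine mul_nonneg (mul_nonneg (by split_ifs <;> norm_num)
      (mul_nonneg (by split_ifs <;> norm_num) (hprod e2))) hz0
  by_cases hc : K.card ≤ 1
  · have : K.card - 1 = 0 := by omega
    rw [this, pow_zero]
    have := Finset.sum_nonneg (fun e2 (_ : e2 ∈ range E) =>
      Finset.sum_nonneg (fun e1 (_ : e1 ∈ range (e2 - 1)) => hterm e2 e1))
    linarith
  · push Not at hc
    have hne : K.Nonempty := Finset.card_pos.mp (by omega)
    set e1 := K.min' hne with he1
    have he1K : e1 ∈ K := K.min'_mem hne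
    have hc1 : (K.erase e1).card = K.card - 1 := Finset.card_erase_of_mem he1K
    have hne2 : (K.erase e1).Nonempty := Finset.card_pos.mp (by omega)
    set e2 := (K.erase e1).min' hne2 with he2
    have he2K' : e2 ∈ K.erase e1 := (K.erase e1).min'_mem hne2
    have he2K : e2 ∈ K := Finset.mem_of_mem_erase he2K'
    have h12 : e1 < e2 := by
      have h := K.min'_le e2 he2K
      have h' : e2 ≠ e1 := Finset.ne_of_mem_erase he2K'
      omega
    have h12' : e1 + 1 ≠ e2 := by
      intro h
      exact hadj e1 he1K (h ▸ he2K)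
    have hmem1 : e1 ∈ range (e2 - 1) := by
      rw [Finset.mem_range]; omega
    have hmem2 : e2 ∈ range E := hK he2K
    set K2 := (K.erase e1).erase e2 with hK2
    have hcK2 : K2.card = K.card - 2 := by
      rw [hK2, Finset.card_erase_of_mem he2K', hc1]; omega
    have hK2sub : K2 ⊆ (range E).filter (fun e => e2 < e) := by
      intro e he
      rw [Finset.mem_filter]
      have hee : e ∈ K.erase e1 := Finset.mem_of_mem_erase he
      refine ⟨hK (Finset.mem_of_mem_erase hee), ?_⟩
      have h := (K.erase e1).min'_le e hee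
      have h' : e ≠ e2 := Finset.ne_of_mem_erase he
      omega
    have hpow : z ^ K2.card ≤ ∏ e ∈ (range E).filter (fun e => e2 < e),
        (1 + z * (if P e then (1 : ℝ) else 0)) := by
      have h4 : z ^ K2.card = ∏ e ∈ (range E).filter (fun e => e2 < e),
          (if e ∈ K2 then z else 1) := by
        rw [Finset.prod_ite_mem, Finset.inter_eq_right.mpr hK2sub, Finset.prod_const]
      rw [h4]
      refine Finset.prod_le_prod (fun e _ => ?_) (fun e _ => ?_)
      · split_ifs
        · exact hz0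
        · exact zero_le_one
      · by_cases he : e ∈ K2
        · have hPe : P e := hP e (Finset.mem_of_mem_erase (Finset.mem_of_mem_erase he))
          rw [if_pos he, if_pos hPe]
          linarith
        · rw [if_neg he]
          split_ifs <;> nlinarith
    have hexp : z ^ (K.card - 1) = z ^ K2.card * z := by
      rw [hcK2, ← pow_succ]
      congr 1
      omega
    rw [hexp]
    have hA : z ^ K2.card * z ≤ ((if P e1 then (1 : ℝ) else 0) * ((if P e2 then (1 : ℝ) else 0) *
        ∏ e ∈ (range E).filter (fun e => e2 < e),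
          (1 + z * (if P e then (1 : ℝ) else 0)))) * z := by
      rw [if_pos (hP e1 he1K), if_pos (hP e2 he2K), one_mul, one_mul]
      exact mul_le_mul_of_nonneg_right hpow hz0
    have hB := Finset.single_le_sum (f := fun e1 => ((if P e1 then (1 : ℝ) else 0) *
        ((if P e2 then (1 : ℝ) else 0) *
        ∏ e ∈ (range E).filter (fun e => e2 < e),
          (1 + z * (if P e then (1 : ℝ) else 0)))) * z) (fun e1 _ => hterm e2 e1) hmem1
    have hC := Finset.single_le_sum (f := fun e2 => ∑ e1 ∈ range (e2 - 1),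
        ((if P e1 then (1 : ℝ) else 0) * ((if P e2 then (1 : ℝ) else 0) *
        ∏ e ∈ (range E).filter (fun e => e2 < e),
          (1 + z * (if P e then (1 : ℝ) else 0)))) * z)
        (fun e2 _ => Finset.sum_nonneg (fun e1 _ => hterm e2 e1)) hmem2
    beta_reduce at hB hC
    linarith

/-- The average of `z ^ (#K - 1)` over all functions `b`. -/
theorem peel_avg {ι Y : Type*} [Fintype ι] [DecidableEq ι] [Fintype Y] [Nonempty Y]
    (E : ℕ) (X : ℕ → ι) (hX : Set.InjOn X (range E : Finset ℕ)) (P : ℕ → Y → Prop)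
    [∀ e, DecidablePred (P e)] (K : (ι → Y) → Finset ℕ) (hK : ∀ b, K b ⊆ range E)
    (hP : ∀ b, ∀ e ∈ K b, P e (b (X e))) (hadj : ∀ b, ∀ e ∈ K b, e + 1 ∉ K b)
    (z : ℝ) (hz : 1 ≤ z) (a : ℕ → ℝ)
    (ha : ∀ e < E, ((univ.filter (fun y => P e y)).card : ℝ) / (Fintype.card Y : ℝ) ≤ a e)
    (hza : z * ∑ e ∈ range E, a e ≤ 1) :
    ∑ b : ι → Y, z ^ ((K b).card - 1) ≤
      (1 + Real.exp 1 * z * ∑ e2 ∈ range E, ∑ e1 ∈ range (e2 - 1), a e1 * a e2) *
        (Fintype.card Y : ℝ) ^ (Fintype.card ι) := by
  classical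
  have hz0 : (0 : ℝ) ≤ z := le_trans zero_le_one hz
  have hYpos : (0 : ℝ) < (Fintype.card Y : ℝ) := by
    have : 0 < Fintype.card Y := Fintype.card_pos
    exact_mod_cast this
  set C : ℝ := (Fintype.card Y : ℝ) ^ (Fintype.card ι) with hC
  have hCpos : 0 < C := by positivity
  have ha0 : ∀ e < E, 0 ≤ a e := fun e he => le_trans (by positivity) (ha e he)
  -- the sum of one term
  have hone : ∀ e2 ∈ range E, ∀ e1 ∈ range (e2 - 1),
      ∑ b : ι → Y, ((if P e1 (b (X e1)) then (1 : ℝ) else 0) *
        ((if P e2 (b (X e2)) then (1 : ℝ) else 0) *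
        ∏ e ∈ (range E).filter (fun e => e2 < e),
          (1 + z * (if P e (b (X e)) then (1 : ℝ) else 0)))) * z ≤
      Real.exp 1 * z * (a e1 * a e2) * C := by
    intro e2 he2 e1 he1
    rw [Finset.mem_range] at he2 he1
    have h12 : e1 < e2 := by omega
    have h1E : e1 < E := by omega
    set T := (range E).filter (fun e => e2 < e) with hT
    have hTE : ∀ e ∈ T, e < E ∧ e2 < e := by
      intro e he
      rw [hT, Finset.mem_filter, Finset.mem_range] at he
      exact he
    have h2T : e2 ∉ T := fun h => lt_irrefl _ (hTE e2 h).2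
    have h1T : e1 ∉ insert e2 T := by
      intro h
      rw [Finset.mem_insert] at h
      rcases h with h | h
      · omega
      · have := (hTE e1 h).2
        omega
    let φ : ℕ → Y → ℝ := fun e y =>
      if e = e1 ∨ e = e2 then (if P e y then (1 : ℝ) else 0)
        else (1 + z * (if P e y then (1 : ℝ) else 0))
    have hφ1 : ∀ y, φ e1 y = (if P e1 y then (1 : ℝ) else 0) := by
      intro y; simp [φ]
    have hφ2 : ∀ y, φ e2 y = (if P e2 y then (1 : ℝ) else 0) := by
      intro y; simp [φ]
    have hφT : ∀ e ∈ T, ∀ y, φ e y = (1 + z * (if P e y then (1 : ℝ) else 0)) := by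
      intro e he y
      have h := hTE e he
      have : ¬ (e = e1 ∨ e = e2) := by
        rintro (rfl | rfl) <;> omega
      simp only [φ, if_neg this]
    have hprod : ∀ b : ι → Y, ((if P e1 (b (X e1)) then (1 : ℝ) else 0) *
        ((if P e2 (b (X e2)) then (1 : ℝ) else 0) *
        ∏ e ∈ T, (1 + z * (if P e (b (X e)) then (1 : ℝ) else 0)))) =
        ∏ e ∈ insert e1 (insert e2 T), φ e (b (X e)) := by
      intro b
      rw [Finset.prod_insert h1T, Finset.prod_insert h2T, hφ1, hφ2]
      congr 2
      exact Finset.prod_congr rfl (fun e he => (hφT e he _).symm)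
    rw [← Finset.sum_mul, Finset.sum_congr rfl (fun b _ => hprod b)]
    have hS : Set.InjOn X ((insert e1 (insert e2 T) : Finset ℕ) : Set ℕ) := by
      refine hX.mono ?_
      intro e he
      rw [Finset.mem_coe, Finset.mem_insert, Finset.mem_insert] at he
      rw [Finset.mem_coe, Finset.mem_range]
      rcases he with rfl | rfl | he
      · exact h1E
      · exact he2
      · exact (hTE e he).1
    rw [peel_sum_prod_chain _ X hS φ, Finset.prod_insert h1T, Finset.prod_insert h2T]
    have hs1 : (∑ y, φ e1 y) / (Fintype.card Y : ℝ) ≤ a e1 := by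
      rw [Finset.sum_congr rfl (fun y _ => hφ1 y), Finset.sum_boole]
      exact ha e1 h1E
    have hs2 : (∑ y, φ e2 y) / (Fintype.card Y : ℝ) ≤ a e2 := by
      rw [Finset.sum_congr rfl (fun y _ => hφ2 y), Finset.sum_boole]
      exact ha e2 he2
    have hn1 : 0 ≤ (∑ y, φ e1 y) / (Fintype.card Y : ℝ) := by
      rw [Finset.sum_congr rfl (fun y _ => hφ1 y), Finset.sum_boole]
      positivity
    have hn2 : 0 ≤ (∑ y, φ e2 y) / (Fintype.card Y : ℝ) := by
      rw [Finset.sum_congr rfl (fun y _ => hφ2 y), Finset.sum_boole]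
      positivity
    have hsT : ∀ e ∈ T, (∑ y, φ e y) / (Fintype.card Y : ℝ) =
        1 + z * (((univ.filter (fun y => P e y)).card : ℝ) / (Fintype.card Y : ℝ)) := by
      intro e he
      rw [Finset.sum_congr rfl (fun y _ => hφT e he y), Finset.sum_add_distrib,
        ← Finset.mul_sum, Finset.sum_boole, Finset.sum_const, Finset.card_univ, nsmul_eq_mul,
        mul_one, add_div, div_self hYpos.ne', mul_div_assoc]
    have hprodT : ∏ e ∈ T, ((∑ y, φ e y) / (Fintype.card Y : ℝ)) ≤ Real.exp 1 := by
      have hle : ∏ e ∈ T, ((∑ y, φ e y) / (Fintype.card Y : ℝ)) ≤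
          ∏ e ∈ T, Real.exp (z * a e) := by
        refine Finset.prod_le_prod (fun e he => ?_) (fun e he => ?_)
        · rw [hsT e he]; positivity
        · rw [hsT e he]
          have h1 := ha e (hTE e he).1
          have h2 := Real.add_one_le_exp (z * a e)
          have h3 := mul_le_mul_of_nonneg_left h1 hz0
          linarith
      refine le_trans hle ?_
      rw [← Real.exp_sum, ← Finset.mul_sum]
      refine Real.exp_le_exp.mpr (le_trans ?_ hza)
      refine mul_le_mul_of_nonneg_left ?_ hz0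
      refine Finset.sum_le_sum_of_subset_of_nonneg (Finset.filter_subset _ _) (fun e he _ => ?_)
      exact ha0 e (Finset.mem_range.mp he)
    have hprodT0 : 0 ≤ ∏ e ∈ T, ((∑ y, φ e y) / (Fintype.card Y : ℝ)) :=
      Finset.prod_nonneg (fun e he => by rw [hsT e he]; positivity)
    have hfin : (∑ y, φ e1 y) / (Fintype.card Y : ℝ) * ((∑ y, φ e2 y) / (Fintype.card Y : ℝ) *
        ∏ e ∈ T, ((∑ y, φ e y) / (Fintype.card Y : ℝ))) ≤ a e1 * (a e2 * Real.exp 1) := by
      refine mul_le_mul hs1 (mul_le_mul hs2 hprodT hprodT0 (ha0 e2 he2))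
        (mul_nonneg hn2 hprodT0) (ha0 e1 h1E)
    have := mul_le_mul_of_nonneg_right (mul_le_mul_of_nonneg_right hfin hCpos.le) hz0
    calc _ ≤ a e1 * (a e2 * Real.exp 1) * C * z := this
      _ = Real.exp 1 * z * (a e1 * a e2) * C := by ring
  calc ∑ b : ι → Y, z ^ ((K b).card - 1)
      ≤ ∑ b : ι → Y, (1 + ∑ e2 ∈ range E, ∑ e1 ∈ range (e2 - 1),
      ((if P e1 (b (X e1)) then (1 : ℝ) else 0) * ((if P e2 (b (X e2)) then (1 : ℝ) else 0) *
        ∏ e ∈ (range E).filter (fun e => e2 < e),
          (1 + z * (if P e (b (X e)) then (1 : ℝ) else 0)))) * z) := by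
        refine Finset.sum_le_sum (fun b _ => ?_)
        exact peel_pointwise E (fun e => P e (b (X e))) (K b) (hK b) (hP b) (hadj b) z hz
    _ = C + ∑ e2 ∈ range E, ∑ e1 ∈ range (e2 - 1), ∑ b : ι → Y,
      ((if P e1 (b (X e1)) then (1 : ℝ) else 0) * ((if P e2 (b (X e2)) then (1 : ℝ) else 0) *
        ∏ e ∈ (range E).filter (fun e => e2 < e),
          (1 + z * (if P e (b (X e)) then (1 : ℝ) else 0)))) * z := by
        rw [Finset.sum_add_distrib]
        congr 1
        · simp [hC]
        · rw [Finset.sum_comm]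
          refine Finset.sum_congr rfl (fun e2 _ => ?_)
          rw [Finset.sum_comm]
    _ ≤ C + ∑ e2 ∈ range E, ∑ e1 ∈ range (e2 - 1), Real.exp 1 * z * (a e1 * a e2) * C := by
        have := Finset.sum_le_sum (fun e2 (h2 : e2 ∈ range E) =>
          Finset.sum_le_sum (fun e1 (h1 : e1 ∈ range (e2 - 1)) => hone e2 h2 e1 h1))
        linarith
    _ = _ := by
        simp only [← Finset.sum_mul, ← Finset.mul_sum]
        ring

end Pool.Agent.TH
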