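import Mathlib
import Pool.Agent.TH.Peel
import Pool.Agent.TH.PeelProb
import Pool.Agent.TH.PeelNum

/-!
# Lemma P of note 2821: peeling for all chains of classes

helper94, for MP_06e2b3_co.
-/

namespace Pool.Agent.TH

open Finset

/-- The rows of the bundle `p = (e, j)` at the chain `X`: the rows whose value at the class `X e`
is owned by the label `j`, and which are not used by the class `X (e+1)`. -/
def bundleRows {ι J R Y : Type*} [DecidableEq J] [Fintype R] (E : ℕ) (own : ℕ → Y → Option J)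
    (X : ℕ → ι) (β : ι → R → Y) (p : ℕ × J) : Finset R :=
  univ.filter (fun ρ => own p.1 (β (X p.1) ρ) = some p.2 ∧
    (p.1 + 1 < E → own (p.1 + 1) (β (X (p.1 + 1)) ρ) = none))

/-- All bundle labels. -/
def famB {J : Type*} [DecidableEq J] (E : ℕ) (Js : ℕ → Finset J) : Finset (ℕ × J) :=
  (range E).biUnion (fun e => (Js e).image (fun j => (e, j)))

theorem mem_famB {J : Type*} [DecidableEq J] {E : ℕ} {Js : ℕ → Finset J} {p : ℕ × J} :
    p ∈ famB E Js ↔ p.1 < E ∧ p.2 ∈ Js p.1 := by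
  obtain ⟨e, j⟩ := p
  simp only [famB, Finset.mem_biUnion, Finset.mem_range, Finset.mem_image, Prod.mk.injEq]
  constructor
  · rintro ⟨e', he', j', hj', rfl, rfl⟩
    exact ⟨he', hj'⟩
  · rintro ⟨he, hj⟩
    exact ⟨e, he, j, hj, rfl, rfl⟩

/-- The levels of the members of `F` containing the row with column of values `b`. -/
noncomputable def levK {ι J Y : Type*} (E : ℕ) (own : ℕ → Y → Option J)
    (X : ℕ → ι) (F : Finset (ℕ × J)) (b : ι → Y) : Finset ℕ := by
  classical
  exact (range E).filter (fun e => (∃ j, own e (b (X e)) = some j ∧ (e, j) ∈ F) ∧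
    (e + 1 < E → own (e + 1) (b (X (e + 1))) = none))

theorem mem_levK {ι J Y : Type*} {E : ℕ} {own : ℕ → Y → Option J}
    {X : ℕ → ι} {F : Finset (ℕ × J)} {b : ι → Y} {e : ℕ} :
    e ∈ levK E own X F b ↔ e < E ∧ (∃ j, own e (b (X e)) = some j ∧ (e, j) ∈ F) ∧
    (e + 1 < E → own (e + 1) (b (X (e + 1))) = none) := by
  classical
  simp only [levK, Finset.mem_filter, Finset.mem_range]

theorem levK_adj {ι J Y : Type*} {E : ℕ} {own : ℕ → Y → Option J}
    {X : ℕ → ι} {F : Finset (ℕ × J)} {b : ι → Y} :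
    ∀ e ∈ levK E own X F b, e + 1 ∉ levK E own X F b := by
  intro e he he1
  rw [mem_levK] at he he1
  obtain ⟨j, hj, _⟩ := he1.2.1
  rw [he.2.2 he1.1] at hj
  cases hj

theorem mult_le_levK {ι J R Y : Type*} [DecidableEq J] [Fintype R] [DecidableEq R] {E : ℕ}
    {own : ℕ → Y → Option J} {X : ℕ → ι} {Js : ℕ → Finset J} {F : Finset (ℕ × J)}
    (hF : F ⊆ famB E Js) (β : ι → R → Y) (ρ : R) :
    peelMult F (bundleRows E own X β) ρ ≤ (levK E own X F (fun i => β i ρ)).card := by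
  classical
  unfold peelMult
  refine Finset.card_le_card_of_injOn (fun p => p.1) ?_ ?_
  · intro p hp
    rw [Finset.mem_coe, Finset.mem_filter, bundleRows, Finset.mem_filter] at hp
    rw [Finset.mem_coe, mem_levK]
    exact ⟨(mem_famB.mp (hF hp.1)).1, ⟨p.2, hp.2.2.1, hp.1⟩, hp.2.2.2⟩
  · intro p hp p' hp' h
    rw [Finset.mem_coe, Finset.mem_filter, bundleRows, Finset.mem_filter] at hp hp'
    have h1 := hp.2.2.1
    have h2 := hp'.2.2.1
    simp only at h
    rw [← h, h1] at h2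
    exact Prod.ext h (Option.some_injective _ h2)

/-- Sum over all `β` of a product over the rows. -/
theorem sum_beta_prod {ι R Y : Type*} [Fintype ι] [DecidableEq ι] [Fintype R] [DecidableEq R]
    [Fintype Y] (g : (ι → Y) → ℝ) :
    ∑ β : ι → R → Y, ∏ ρ : R, g (fun i => β i ρ) = (∑ b : ι → Y, g b) ^ (Fintype.card R) := by
  classical
  have h1 : ∑ β : ι → R → Y, ∏ ρ : R, g (fun i => β i ρ) =
      ∑ γ : R → ι → Y, ∏ ρ : R, g (γ ρ) := by
    refine Fintype.sum_equiv (Equiv.piComm (fun (_ : ι) (_ : R) => Y)) _ _ (fun β => ?_)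
    rfl
  rw [h1]
  have h2 := Finset.prod_univ_sum (fun _ : R => (univ : Finset (ι → Y)))
    (fun (_ : R) (b : ι → Y) => g b)
  rw [Fintype.piFinset_univ] at h2
  rw [← h2, Finset.prod_const, Finset.card_univ]

/-- One family: the proportion of the `β` with a large excess. -/
theorem peel_one_family {ι J R Y : Type*} [Fintype ι] [DecidableEq ι] [DecidableEq J]
    [Fintype R] [DecidableEq R] [Fintype Y] [Nonempty Y] (M E : ℕ)
    (hR : Fintype.card R = M) (hY : Fintype.card Y = M)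
    {κ : ℕ → ℝ} (h0 : 4 ≤ κ 0) (hκ : ∀ e, κ (e + 1) = κ e ^ 2)
    (own : ℕ → Y → Option J) (Js : ℕ → Finset J)
    (hnb : ∀ e < E, ((Js e).card : ℝ) * κ e ^ 62 ≤ 2 * M)
    (hw : ∀ e < E, ∀ j, ((univ.filter (fun y => own e y = some j)).card : ℝ) ≤ κ e ^ 46)
    (X : ℕ → ι) (hX : Set.InjOn X (range E : Finset ℕ))
    (F : Finset (ℕ × J)) (hF : F ⊆ famB E Js) (hne : F.Nonempty) (hFM : F.card ≤ M) :
    ((univ.filter (fun β : ι → R → Y =>
      64 * F.card < ∑ ρ : R, (peelMult F (bundleRows E own X β) ρ - 1))).card : ℝ) ≤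
      Real.exp (F.card) * ((F.card : ℝ) / M) ^ (4 * F.card) *
        (Fintype.card (ι → R → Y) : ℝ) := by
  classical
  set f : ℕ := F.card with hf
  have hf1 : 1 ≤ f := hne.card_pos
  have hM1 : 1 ≤ M := le_trans hf1 hFM
  have hM0 : (0 : ℝ) < (M : ℝ) := by exact_mod_cast hM1
  have hf0 : (0 : ℝ) < (f : ℝ) := by exact_mod_cast hf1
  set S : ℝ := (f : ℝ) / M with hS
  have hS0 : 0 < S := by positivity
  have hS1 : S ≤ 1 := by
    rw [hS, div_le_one hM0]; exact_mod_cast hFM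
  obtain ⟨σ, hσ0, hσ16⟩ : ∃ σ : ℝ, 0 < σ ∧ σ ^ 16 = S := by
    refine ⟨S ^ ((1 : ℝ) / 16), Real.rpow_pos_of_pos hS0 _, ?_⟩
    rw [← Real.rpow_natCast, ← Real.rpow_mul hS0.le]
    norm_num
  have hσ1 : σ ≤ 1 := by
    by_contra hcon
    push Not at hcon
    have : 1 < σ ^ 16 := one_lt_pow₀ hcon (by norm_num)
    rw [hσ16] at this
    linarith
  set z : ℝ := 1 / σ with hz
  have hz1 : 1 ≤ z := by rw [hz, le_div_iff₀ hσ0]; linarith
  have hz0 : 0 < z := by linarith
  set fe : ℕ → ℝ := fun e => ((F.filter (fun p => p.1 = e)).card : ℝ) with hfe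
  have hfe0 : ∀ e, 0 ≤ fe e := fun e => by simp [hfe]
  have hfesum : ∑ e ∈ range E, fe e = (f : ℝ) := by
    rw [hfe, hf]
    rw [Finset.card_eq_sum_card_fiberwise (f := fun p : ℕ × J => p.1) (t := range E)
      (fun p hp => Finset.mem_coe.mpr (Finset.mem_range.mpr (mem_famB.mp (hF hp)).1))]
    push_cast
    rfl
  have hfeJ : ∀ e < E, fe e ≤ ((Js e).card : ℝ) := by
    intro e _
    show ((F.filter (fun p => p.1 = e)).card : ℝ) ≤ ((Js e).card : ℝ)
    have : (F.filter (fun p => p.1 = e)).card ≤ (Js e).card := by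
      refine Finset.card_le_card_of_injOn (fun p => p.2) ?_ ?_
      · intro p hp
        rw [Finset.mem_coe, Finset.mem_filter] at hp
        have := (mem_famB.mp (hF hp.1)).2
        rw [hp.2] at this
        exact this
      · intro p hp p' hp' h
        rw [Finset.mem_coe, Finset.mem_filter] at hp hp'
        exact Prod.ext (hp.2.trans hp'.2.symm) h
    exact_mod_cast this
  have hκ4 := peelnum_four_le h0 hκ
  have hfM : ∀ e < E, fe e * κ e ^ 62 ≤ 2 * (M : ℝ) := by
    intro e he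
    refine le_trans (mul_le_mul_of_nonneg_right (hfeJ e he) ?_) (hnb e he)
    have := hκ4 e
    positivity
  set a : ℕ → ℝ := fun e => fe e * κ e ^ 46 / M with ha
  have hn1 := peelnum_one h0 hκ E hM0 fe hfe0 hfM hfesum hσ0 hσ16
  have hn2 := peelnum_two h0 hκ E hM0 fe hfe0 hfM hfesum hσ0 hσ16
  -- the probability that a level sees F
  have haP : ∀ e < E, ((univ.filter (fun y : Y => ∃ j, own e y = some j ∧ (e, j) ∈ F)).card : ℝ) /
      (Fintype.card Y : ℝ) ≤ a e := by
    intro e he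
    rw [hY, ha]
    refine div_le_div_of_nonneg_right ?_ hM0.le
    have hsub : (univ.filter (fun y : Y => ∃ j, own e y = some j ∧ (e, j) ∈ F)) ⊆
        (F.filter (fun p => p.1 = e)).biUnion
          (fun p => univ.filter (fun y => own e y = some p.2)) := by
      intro y hy
      rw [Finset.mem_filter] at hy
      obtain ⟨_, j, hj, hjF⟩ := hy
      rw [Finset.mem_biUnion]
      exact ⟨(e, j), Finset.mem_filter.mpr ⟨hjF, rfl⟩, Finset.mem_filter.mpr ⟨Finset.mem_univ _, hj⟩⟩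
    have h1 := Finset.card_le_card hsub
    have h2 := le_trans h1 Finset.card_biUnion_le
    calc ((univ.filter (fun y : Y => ∃ j, own e y = some j ∧ (e, j) ∈ F)).card : ℝ)
        ≤ ((∑ p ∈ F.filter (fun p => p.1 = e),
            (univ.filter (fun y => own e y = some p.2)).card : ℕ) : ℝ) := by exact_mod_cast h2
      _ = ∑ p ∈ F.filter (fun p => p.1 = e),
            ((univ.filter (fun y => own e y = some p.2)).card : ℝ) := by push_cast; rfl
      _ ≤ ∑ p ∈ F.filter (fun p => p.1 = e), κ e ^ 46 :=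
          Finset.sum_le_sum (fun p _ => hw e he p.2)
      _ = fe e * κ e ^ 46 := by rw [Finset.sum_const, nsmul_eq_mul]
  set C : ℝ := (M : ℝ) ^ (Fintype.card ι) with hC
  have hC0 : 0 < C := by positivity
  have havg : ∑ b : ι → Y, z ^ ((levK E own X F b).card - 1) ≤ (1 + S) * C := by
    have h1 := peel_avg E X hX (fun e y => ∃ j, own e y = some j ∧ (e, j) ∈ F)
      (fun b => levK E own X F b)
      (fun b e he => Finset.mem_range.mpr (mem_levK.mp he).1)
      (fun b e he => (mem_levK.mp he).2.1)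
      (fun b => levK_adj) z hz1 a haP hn1
    rw [hY] at h1
    refine le_trans h1 (mul_le_mul_of_nonneg_right ?_ hC0.le)
    linarith
  -- the moment
  have hmom : ∑ β : ι → R → Y, z ^ (∑ ρ : R, (peelMult F (bundleRows E own X β) ρ - 1)) ≤
      Real.exp f * (Fintype.card (ι → R → Y) : ℝ) := by
    have h1 : ∀ β : ι → R → Y, z ^ (∑ ρ : R, (peelMult F (bundleRows E own X β) ρ - 1)) ≤
        ∏ ρ : R, z ^ ((levK E own X F (fun i => β i ρ)).card - 1) := by
      intro β
      rw [Finset.prod_pow_eq_pow_sum]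
      refine pow_le_pow_right₀ hz1 (Finset.sum_le_sum (fun ρ _ => ?_))
      have := mult_le_levK (own := own) (X := X) hF β ρ
      omega
    refine le_trans (Finset.sum_le_sum (fun β _ => h1 β)) ?_
    rw [sum_beta_prod (fun b => z ^ ((levK E own X F b).card - 1)), hR]
    have h2 : (0 : ℝ) ≤ ∑ b : ι → Y, z ^ ((levK E own X F b).card - 1) :=
      Finset.sum_nonneg (fun b _ => by positivity)
    refine le_trans (pow_le_pow_left₀ h2 havg M) ?_
    rw [mul_pow]
    have h3 : C ^ M = (Fintype.card (ι → R → Y) : ℝ) := by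
      rw [hC, Fintype.card_fun, Fintype.card_fun, hY, hR]
      push_cast
      rw [← pow_mul, ← pow_mul]
      congr 1
      ring
    rw [h3]
    refine mul_le_mul_of_nonneg_right ?_ (by positivity)
    have h4 : 1 + S ≤ Real.exp S := by
      have := Real.add_one_le_exp S
      linarith
    calc (1 + S) ^ M ≤ (Real.exp S) ^ M := pow_le_pow_left₀ (by linarith) h4 M
      _ = Real.exp (M * S) := (Real.exp_nat_mul S M).symm
      _ = Real.exp f := by
          congr 1
          rw [hS]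
          field_simp
  -- Markov
  have hmark : z ^ (64 * f) * ((univ.filter (fun β : ι → R → Y =>
      64 * f < ∑ ρ : R, (peelMult F (bundleRows E own X β) ρ - 1))).card : ℝ) ≤
      ∑ β : ι → R → Y, z ^ (∑ ρ : R, (peelMult F (bundleRows E own X β) ρ - 1)) := by
    rw [mul_comm, ← nsmul_eq_mul, ← Finset.sum_const]
    refine le_trans (Finset.sum_le_sum (fun β hβ => ?_))
      (Finset.sum_le_sum_of_subset_of_nonneg (Finset.filter_subset _ univ)
        (fun β _ _ => by positivity))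
    rw [Finset.mem_filter] at hβ
    exact pow_le_pow_right₀ hz1 hβ.2.le
  have hfin := le_trans hmark hmom
  have hzpow : z ^ (64 * f) * S ^ (4 * f) = 1 := by
    rw [hz, ← hσ16, ← pow_mul, one_div, inv_pow]
    have : 16 * (4 * f) = 64 * f := by ring
    rw [this]
    exact inv_mul_cancel₀ (by positivity)
  have hS4 : 0 < S ^ (4 * f) := by positivity
  calc ((univ.filter (fun β : ι → R → Y =>
      64 * f < ∑ ρ : R, (peelMult F (bundleRows E own X β) ρ - 1))).card : ℝ)
      = S ^ (4 * f) * (z ^ (64 * f) * ((univ.filter (fun β : ι → R → Y =>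
      64 * f < ∑ ρ : R, (peelMult F (bundleRows E own X β) ρ - 1))).card : ℝ)) := by
        rw [← mul_assoc, mul_comm (S ^ (4 * f)), hzpow, one_mul]
    _ ≤ S ^ (4 * f) * (Real.exp f * (Fintype.card (ι → R → Y) : ℝ)) :=
        mul_le_mul_of_nonneg_left hfin hS4.le
    _ = _ := by ring

theorem famB_card_le {J : Type*} [DecidableEq J] {E M : ℕ} {κ : ℕ → ℝ} (h0 : 4 ≤ κ 0)
    (hκ : ∀ e, κ (e + 1) = κ e ^ 2) (Js : ℕ → Finset J)
    (hnb : ∀ e < E, ((Js e).card : ℝ) * κ e ^ 62 ≤ 2 * M) :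
    8 * ((famB E Js).card : ℝ) ≤ M := by
  classical
  have hκ4 := peelnum_four_le h0 hκ
  have h1 : ((famB E Js).card : ℝ) ≤ ∑ e ∈ range E, ((Js e).card : ℝ) := by
    have h2 : (famB E Js).card ≤ ∑ e ∈ range E, (Js e).card := by
      refine le_trans Finset.card_biUnion_le (Finset.sum_le_sum (fun e _ => Finset.card_image_le))
    calc ((famB E Js).card : ℝ) ≤ ((∑ e ∈ range E, (Js e).card : ℕ) : ℝ) := by exact_mod_cast h2
      _ = _ := by push_cast; rfl
  have h3 : ∀ e ∈ range E, ((Js e).card : ℝ) ≤ (M : ℝ) / 8 * (1 / κ e) := by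
    intro e he
    have hk := hκ4 e
    have hk0 : 0 < κ e := by linarith
    have h4 := hnb e (Finset.mem_range.mp he)
    rw [mul_one_div, le_div_iff₀ hk0]
    have hJ0 : (0 : ℝ) ≤ ((Js e).card : ℝ) := by positivity
    have h5 : (4 : ℝ) ^ 61 ≤ κ e ^ 61 := pow_le_pow_left₀ (by norm_num) hk 61
    have h6 : ((Js e).card : ℝ) * κ e * 4 ^ 61 ≤ 2 * M := by
      calc ((Js e).card : ℝ) * κ e * 4 ^ 61 ≤ ((Js e).card : ℝ) * κ e * κ e ^ 61 :=
            mul_le_mul_of_nonneg_left h5 (by positivity)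
        _ = ((Js e).card : ℝ) * κ e ^ 62 := by ring
        _ ≤ 2 * M := h4
    have h7 : (0 : ℝ) ≤ ((Js e).card : ℝ) * κ e := by positivity
    norm_num at h6 ⊢
    linarith
  have h8 := Finset.sum_le_sum h3
  rw [← Finset.mul_sum] at h8
  have h9 := peelnum_sum_inv h0 hκ E
  have hM0 : (0 : ℝ) ≤ (M : ℝ) := by positivity
  nlinarith

theorem peel_choose_term {N M f : ℕ} (hf : 1 ≤ f) (hfN : f ≤ N) (hN : 8 * (N : ℝ) ≤ M) :
    ((N.choose f : ℕ) : ℝ) * (Real.exp f * ((f : ℝ) / M) ^ (4 * f)) ≤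
      (1 / (M : ℝ) ^ 3) * (1 / 2) ^ (f - 1) := by
  have hf0 : (0 : ℝ) < (f : ℝ) := by exact_mod_cast hf
  have hN0 : (0 : ℝ) < (N : ℝ) := by exact_mod_cast (lt_of_lt_of_le hf hfN)
  have hM0 : (0 : ℝ) < (M : ℝ) := by linarith
  have hfM : 8 * (f : ℝ) ≤ M := by
    have : (f : ℝ) ≤ N := by exact_mod_cast hfN
    linarith
  set r : ℝ := (f : ℝ) / M with hr
  have hr0 : 0 < r := by positivity
  have hr8 : r ≤ 1 / 8 := by
    rw [hr, div_le_iff₀ hM0]; linarith
  have hch : ((N.choose f : ℕ) : ℝ) ≤ (N : ℝ) ^ f / (f.factorial : ℝ) := by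
    have := Nat.choose_le_pow_div f N (α := ℝ)
    exact this
  have hfac : (f : ℝ) ^ f / (f.factorial : ℝ) ≤ Real.exp f :=
    Real.pow_div_factorial_le_exp (f : ℝ) hf0.le f
  have h1 : ((N.choose f : ℕ) : ℝ) ≤ (1 / (8 * r)) ^ f * Real.exp f := by
    have h2 : (N : ℝ) ^ f / (f.factorial : ℝ) = ((N : ℝ) / f) ^ f * ((f : ℝ) ^ f / (f.factorial : ℝ)) := by
      rw [div_pow]
      field_simp
    rw [h2] at hch
    refine le_trans hch (mul_le_mul ?_ hfac (by positivity) (by positivity))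
    refine pow_le_pow_left₀ (by positivity) ?_ f
    rw [hr, div_le_div_iff₀ hf0 (by positivity)]
    have : (N : ℝ) * (8 * (f / M)) = (8 * N / M) * f := by ring
    rw [this, one_mul]
    have h3 : 8 * (N : ℝ) / M ≤ 1 := by rw [div_le_one hM0]; exact hN
    nlinarith
  have hexp2 : Real.exp f * Real.exp f ≤ 8 ^ f := by
    have h4 : Real.exp 1 * Real.exp 1 ≤ 8 := by
      have h5 := Real.exp_one_lt_d9
      have h6 := Real.exp_pos 1
      nlinarith
    have h7 : Real.exp f = Real.exp 1 ^ f := by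
      rw [← Real.exp_nat_mul, mul_one]
    rw [h7, ← mul_pow]
    exact pow_le_pow_left₀ (by positivity) h4 f
  have h8 : ((N.choose f : ℕ) : ℝ) * (Real.exp f * r ^ (4 * f)) ≤ (r ^ 3) ^ f := by
    calc ((N.choose f : ℕ) : ℝ) * (Real.exp f * r ^ (4 * f))
        ≤ ((1 / (8 * r)) ^ f * Real.exp f) * (Real.exp f * r ^ (4 * f)) :=
          mul_le_mul_of_nonneg_right h1 (by positivity)
      _ = (Real.exp f * Real.exp f) * ((1 / (8 * r)) ^ f * r ^ (4 * f)) := by ring
      _ ≤ 8 ^ f * ((1 / (8 * r)) ^ f * r ^ (4 * f)) :=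
          mul_le_mul_of_nonneg_right hexp2 (by positivity)
      _ = (r ^ 3) ^ f := by
          rw [pow_mul, ← mul_pow, ← mul_pow]
          congr 1
          field_simp
  refine le_trans h8 ?_
  obtain ⟨g, rfl⟩ : ∃ g, f = g + 1 := ⟨f - 1, by omega⟩
  rw [Nat.add_sub_cancel, pow_succ]
  have h9 : (r ^ 3) ^ g ≤ (1 / 512) ^ g := by
    refine pow_le_pow_left₀ (by positivity) ?_ g
    calc r ^ 3 ≤ (1 / 8) ^ 3 := pow_le_pow_left₀ hr0.le hr8 3
      _ = 1 / 512 := by norm_num
  have h10 : r ^ 3 = (1 / (M : ℝ) ^ 3) * ((g + 1 : ℕ) : ℝ) ^ 3 := by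
    rw [hr, div_pow]; ring
  have h11 : ((g + 1 : ℕ) : ℝ) ^ 3 ≤ 256 ^ g := by
    have h12 : ((g + 1 : ℕ) : ℝ) ≤ 2 ^ g := by
      have : g + 1 ≤ 2 ^ g := Nat.lt_two_pow_self
      exact_mod_cast this
    calc ((g + 1 : ℕ) : ℝ) ^ 3 ≤ (2 ^ g) ^ 3 := pow_le_pow_left₀ (by positivity) h12 3
      _ = 8 ^ g := by rw [← pow_mul, mul_comm, pow_mul]; norm_num
      _ ≤ 256 ^ g := pow_le_pow_left₀ (by norm_num) (by norm_num) g
  calc (r ^ 3) ^ g * r ^ 3 ≤ (1 / 512) ^ g * ((1 / (M : ℝ) ^ 3) * ((g + 1 : ℕ) : ℝ) ^ 3) := by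
        rw [← h10]
        exact mul_le_mul_of_nonneg_right h9 (by positivity)
    _ ≤ (1 / 512) ^ g * ((1 / (M : ℝ) ^ 3) * 256 ^ g) := by
        refine mul_le_mul_of_nonneg_left (mul_le_mul_of_nonneg_left h11 (by positivity))
          (by positivity)
    _ = (1 / (M : ℝ) ^ 3) * (1 / 2) ^ g := by
        have : ((1 : ℝ) / 2) ^ g = (1 / 512) ^ g * 256 ^ g := by
          rw [← mul_pow]; norm_num
        rw [this]; ring

/-- The excess condition for all families at one chain. -/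
def PeelGood {ι J R Y : Type*} [DecidableEq J] [Fintype R] [DecidableEq R] (E : ℕ)
    (own : ℕ → Y → Option J) (Js : ℕ → Finset J) (X : ℕ → ι) (β : ι → R → Y) : Prop :=
  ∀ F ⊆ famB E Js, F.Nonempty →
    ∑ ρ : R, (peelMult F (bundleRows E own X β) ρ - 1) ≤ 64 * F.card

/-- One chain: the proportion of bad `β` is at most `2 / M ^ 3`. -/
theorem peel_one_chain {ι J R Y : Type*} [Fintype ι] [DecidableEq ι] [DecidableEq J]
    [Fintype R] [DecidableEq R] [Fintype Y] [Nonempty Y] (M E : ℕ)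
    (hR : Fintype.card R = M) (hY : Fintype.card Y = M)
    {κ : ℕ → ℝ} (h0 : 4 ≤ κ 0) (hκ : ∀ e, κ (e + 1) = κ e ^ 2)
    (own : ℕ → Y → Option J) (Js : ℕ → Finset J)
    (hnb : ∀ e < E, ((Js e).card : ℝ) * κ e ^ 62 ≤ 2 * M)
    (hw : ∀ e < E, ∀ j, ((univ.filter (fun y => own e y = some j)).card : ℝ) ≤ κ e ^ 46)
    (X : ℕ → ι) (hX : Set.InjOn X (range E : Finset ℕ))
    [DecidablePred (fun β : ι → R → Y => ¬ PeelGood E own Js X β)] :
    ((univ.filter (fun β : ι → R → Y => ¬ PeelGood E own Js X β)).card : ℝ) ≤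
      2 / (M : ℝ) ^ 3 * (Fintype.card (ι → R → Y) : ℝ) := by
  classical
  have hN := famB_card_le h0 hκ Js hnb
  set N := (famB E Js).card with hNdef
  have hM1 : 1 ≤ M := by
    rw [← hY]; exact Fintype.card_pos
  have hM0 : (0 : ℝ) < (M : ℝ) := by exact_mod_cast hM1
  set T : ℝ := (Fintype.card (ι → R → Y) : ℝ) with hT
  have hT0 : 0 ≤ T := by positivity
  set bad : Finset (ℕ × J) → Finset (ι → R → Y) := fun F =>
    univ.filter (fun β : ι → R → Y =>
      64 * F.card < ∑ ρ : R, (peelMult F (bundleRows E own X β) ρ - 1)) with hbad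
  have hsub : (univ.filter (fun β : ι → R → Y => ¬ PeelGood E own Js X β)) ⊆
      ((famB E Js).powerset.erase ∅).biUnion bad := by
    intro β hβ
    rw [Finset.mem_filter] at hβ
    have h1 := hβ.2
    unfold PeelGood at h1
    push Not at h1
    obtain ⟨F, hF, hne, hlt⟩ := h1
    rw [Finset.mem_biUnion]
    refine ⟨F, Finset.mem_erase.mpr ⟨hne.ne_empty, Finset.mem_powerset.mpr hF⟩, ?_⟩
    rw [hbad, Finset.mem_filter]
    exact ⟨Finset.mem_univ _, hlt⟩
  set g : ℕ → ℝ := fun f => if f = 0 then 0 else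
    Real.exp f * ((f : ℝ) / M) ^ (4 * f) * T with hg
  have hg0 : ∀ f, 0 ≤ g f := by
    intro f
    simp only [hg]
    split_ifs
    · exact le_refl _
    · positivity
  have h1 : ((univ.filter (fun β : ι → R → Y => ¬ PeelGood E own Js X β)).card : ℝ) ≤
      ∑ F ∈ (famB E Js).powerset.erase ∅, ((bad F).card : ℝ) := by
    have h2 := le_trans (Finset.card_le_card hsub) Finset.card_biUnion_le
    calc _ ≤ ((∑ F ∈ (famB E Js).powerset.erase ∅, (bad F).card : ℕ) : ℝ) := by
          exact_mod_cast h2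
      _ = _ := by push_cast; rfl
  have h3 : ∑ F ∈ (famB E Js).powerset.erase ∅, ((bad F).card : ℝ) ≤
      ∑ F ∈ (famB E Js).powerset, g F.card := by
    refine le_trans (Finset.sum_le_sum (fun F hF => ?_))
      (Finset.sum_le_sum_of_subset_of_nonneg (Finset.erase_subset _ _) (fun F _ _ => hg0 _))
    rw [Finset.mem_erase, Finset.mem_powerset] at hF
    have hne : F.Nonempty := Finset.nonempty_iff_ne_empty.mpr hF.1
    have hcN : F.card ≤ N := Finset.card_le_card hF.2
    have hcM : F.card ≤ M := by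
      have h4 : (F.card : ℝ) ≤ N := by exact_mod_cast hcN
      have h5 : (0 : ℝ) ≤ N := by positivity
      have h6 : (F.card : ℝ) ≤ M := by linarith
      exact_mod_cast h6
    have h7 := peel_one_family M E hR hY h0 hκ own Js hnb hw X hX F hF.2 hne hcM
    have hc0 : F.card ≠ 0 := hne.card_pos.ne'
    simp only [hg, if_neg hc0]
    exact h7
  have h8 : ∑ F ∈ (famB E Js).powerset, g F.card ≤ 2 / (M : ℝ) ^ 3 * T := by
    rw [Finset.sum_powerset_apply_card, ← hNdef, Finset.sum_range_succ']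
    have hz0 : N.choose 0 • g 0 = 0 := by simp [hg]
    rw [hz0, add_zero]
    have h9 : ∀ i ∈ range N, N.choose (i + 1) • g (i + 1) ≤
        (1 / (M : ℝ) ^ 3) * (1 / 2) ^ i * T := by
      intro i hi
      rw [Finset.mem_range] at hi
      have h10 := peel_choose_term (N := N) (M := M) (f := i + 1) (by omega) (by omega) hN
      rw [Nat.add_sub_cancel] at h10
      have h11 : g (i + 1) = Real.exp ((i + 1 : ℕ) : ℝ) *
          (((i + 1 : ℕ) : ℝ) / M) ^ (4 * (i + 1)) * T := by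
        simp [hg]
      rw [h11, nsmul_eq_mul, ← mul_assoc]
      exact mul_le_mul_of_nonneg_right h10 hT0
    refine le_trans (Finset.sum_le_sum h9) ?_
    rw [← Finset.sum_mul, ← Finset.mul_sum]
    have h12 : ∑ i ∈ range N, (1 / 2 : ℝ) ^ i ≤ 2 := sum_geometric_two_le N
    have h13 : (0 : ℝ) ≤ 1 / (M : ℝ) ^ 3 := by positivity
    calc 1 / (M : ℝ) ^ 3 * (∑ i ∈ range N, (1 / 2 : ℝ) ^ i) * T
        ≤ 1 / (M : ℝ) ^ 3 * 2 * T :=
          mul_le_mul_of_nonneg_right (mul_le_mul_of_nonneg_left h12 h13) hT0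
      _ = 2 / (M : ℝ) ^ 3 * T := by ring
  linarith

/-- LEMMA P: for all but a proportion `2 / M` of the `β`, the rows can be given to the levels such
that, for every `x`, every bundle at `x` loses at most `128` rows. -/
theorem lemmaP {ι J R Y V : Type*} [Fintype ι] [DecidableEq ι] [DecidableEq J]
    [Fintype R] [DecidableEq R] [Fintype Y] [Nonempty Y] [Fintype V] (M E : ℕ)
    (hR : Fintype.card R = M) (hY : Fintype.card Y = M) (hV : Fintype.card V ≤ M ^ 2)
    {κ : ℕ → ℝ} (h0 : 4 ≤ κ 0) (hκ : ∀ e, κ (e + 1) = κ e ^ 2)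
    (own : ℕ → Y → Option J) (Js : ℕ → Finset J)
    (hnb : ∀ e < E, ((Js e).card : ℝ) * κ e ^ 62 ≤ 2 * M)
    (hw : ∀ e < E, ∀ j, ((univ.filter (fun y => own e y = some j)).card : ℝ) ≤ κ e ^ 46)
    (X : V → ℕ → ι) (hX : ∀ x, Set.InjOn (X x) (range E : Finset ℕ))
    [DecidablePred (fun β : ι → R → Y => ¬ ∀ x, ∃ s : R → Option (ℕ × J), ∀ e < E, ∀ j ∈ Js e,
        ((bundleRows E own (X x) β (e, j)).filter (fun ρ => s ρ ≠ some (e, j))).card ≤ 128)] :
    ((univ.filter (fun β : ι → R → Y =>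
      ¬ ∀ x, ∃ s : R → Option (ℕ × J), ∀ e < E, ∀ j ∈ Js e,
        ((bundleRows E own (X x) β (e, j)).filter (fun ρ => s ρ ≠ some (e, j))).card ≤ 128)).card :
        ℝ) ≤ 2 / (M : ℝ) * (Fintype.card (ι → R → Y) : ℝ) := by
  classical
  have hM1 : 1 ≤ M := by
    rw [← hY]; exact Fintype.card_pos
  have hM0 : (0 : ℝ) < (M : ℝ) := by exact_mod_cast hM1
  set T : ℝ := (Fintype.card (ι → R → Y) : ℝ) with hT
  have hT0 : 0 ≤ T := by positivity
  have hsub : (univ.filter (fun β : ι → R → Y =>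
      ¬ ∀ x, ∃ s : R → Option (ℕ × J), ∀ e < E, ∀ j ∈ Js e,
        ((bundleRows E own (X x) β (e, j)).filter (fun ρ => s ρ ≠ some (e, j))).card ≤ 128)) ⊆
      (univ : Finset V).biUnion (fun x => univ.filter (fun β => ¬ PeelGood E own Js (X x) β)) := by
    intro β hβ
    rw [Finset.mem_filter] at hβ
    have h1 := hβ.2
    rw [not_forall] at h1
    obtain ⟨x, hx⟩ := h1
    rw [Finset.mem_biUnion]
    refine ⟨x, Finset.mem_univ _, ?_⟩
    rw [Finset.mem_filter]
    refine ⟨Finset.mem_univ _, fun hgood => hx ?_⟩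
    obtain ⟨s, hs⟩ := peel_of_excess 64 (bundleRows E own (X x) β) (famB E Js) hgood
    exact ⟨s, fun e he j hj => hs (e, j) (mem_famB.mpr ⟨he, hj⟩)⟩
  have h2 := le_trans (Finset.card_le_card hsub) Finset.card_biUnion_le
  have h3 : (((univ.filter (fun β : ι → R → Y =>
      ¬ ∀ x, ∃ s : R → Option (ℕ × J), ∀ e < E, ∀ j ∈ Js e,
        ((bundleRows E own (X x) β (e, j)).filter (fun ρ => s ρ ≠ some (e, j))).card ≤ 128)).card
        : ℕ) : ℝ) ≤
      ∑ x : V, ((univ.filter (fun β : ι → R → Y => ¬ PeelGood E own Js (X x) β)).card : ℝ) := by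
    calc _ ≤ ((∑ x : V, (univ.filter (fun β : ι → R → Y =>
          ¬ PeelGood E own Js (X x) β)).card : ℕ) : ℝ) := by exact_mod_cast h2
      _ = _ := by push_cast; rfl
  refine le_trans h3 ?_
  refine le_trans (Finset.sum_le_sum (fun x _ =>
    peel_one_chain M E hR hY h0 hκ own Js hnb hw (X x) (hX x))) ?_
  rw [Finset.sum_const, Finset.card_univ, nsmul_eq_mul]
  have h4 : (Fintype.card V : ℝ) ≤ (M : ℝ) ^ 2 := by exact_mod_cast hV
  calc (Fintype.card V : ℝ) * (2 / (M : ℝ) ^ 3 * T) ≤ (M : ℝ) ^ 2 * (2 / (M : ℝ) ^ 3 * T) :=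
        mul_le_mul_of_nonneg_right h4 (by positivity)
    _ = 2 / (M : ℝ) * T := by field_simp

end Pool.Agent.TH
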