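import Pool.Agent.TH.BaseNum

namespace Pool.Agent.TH

open Finset

/-- A set with one element in every fiber. -/
theorem exists_reps {V C : Type*} [DecidableEq V] [DecidableEq C] (c : V → C) (P : Finset V) :
    ∃ R ⊆ P, R.image c = P.image c ∧ Set.InjOn c (R : Set V) ∧ R.card = (P.image c).card := by
  classical
  have hex : ∀ y ∈ P.image c, ∃ x ∈ P, c x = y := fun y hy => by simpa using hy
  choose r hr1 hr2 using hex
  refine ⟨(P.image c).attach.image (fun y => r y.1 y.2), ?_, ?_, ?_, ?_⟩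
  · intro x hx
    obtain ⟨y, -, rfl⟩ := Finset.mem_image.mp hx
    exact hr1 _ _
  · ext y
    constructor
    · intro hy
      obtain ⟨x, hx, rfl⟩ := Finset.mem_image.mp hy
      obtain ⟨y, -, rfl⟩ := Finset.mem_image.mp hx
      rw [hr2]
      exact y.2
    · intro hy
      rw [Finset.mem_image]
      exact ⟨r y hy, Finset.mem_image.mpr ⟨⟨y, hy⟩, Finset.mem_attach _ _, rfl⟩, hr2 _ _⟩
  · intro x hx x' hx' h
    rw [Finset.mem_coe, Finset.mem_image] at hx hx'
    obtain ⟨y, -, rfl⟩ := hx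
    obtain ⟨y', -, rfl⟩ := hx'
    rw [hr2, hr2] at h
    have : y = y' := Subtype.ext h
    rw [this]
  · rw [Finset.card_image_of_injective, Finset.card_attach]
    intro y y' h
    apply Subtype.ext
    rw [← hr2 y.1 y.2, ← hr2 y'.1 y'.2]
    exact congrArg c h

/-- The set `P*` of section 3. -/
theorem exists_star {V C D : Type*} [DecidableEq V] [DecidableEq C] [DecidableEq D]
    (c : V → C) (d : V → D) (P : Finset V) (k : ℕ)
    (h : k + (P.image c).card ≤ (P.image d).card) :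
    ∃ Pst ⊆ P, Pst.card = k ∧ Set.InjOn d (Pst : Set V) ∧
      ∀ a ∈ Pst, ∃ x ∈ P, x ≠ a ∧ c x = c a := by
  classical
  obtain ⟨P1, hP1, -, hd1, hc1⟩ := exists_reps d P
  obtain ⟨P2, hP2, him2, -, hc2⟩ := exists_reps c P1
  have h2 : P2.card ≤ (P.image c).card := by
    rw [hc2]
    exact Finset.card_le_card (Finset.image_subset_image hP1)
  have h3 : k ≤ (P1 \ P2).card := by
    have := Finset.le_card_sdiff P2 P1
    omega
  obtain ⟨Pst, hPst, hk⟩ := Finset.exists_subset_card_eq h3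
  refine ⟨Pst, hPst.trans (Finset.sdiff_subset.trans hP1), hk, ?_, ?_⟩
  · intro a ha a' ha' haa
    exact hd1 (Finset.sdiff_subset (hPst ha)) (Finset.sdiff_subset (hPst ha')) haa
  · intro a ha
    have ha1 := hPst ha
    rw [Finset.mem_sdiff] at ha1
    have ha2 : c a ∈ P2.image c := by
      rw [him2]
      exact Finset.mem_image_of_mem _ ha1.1
    obtain ⟨x, hx, hxa⟩ := Finset.mem_image.mp ha2
    refine ⟨x, hP1 (hP2 hx), ?_, hxa⟩
    rintro rfl
    exact ha1.2 hx

/-- `P` is spread over the cells of level `lam` up to a defect of `d` points. -/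
def Spr (μ lam n d : ℕ) (P : Finset (Fin (2 ^ μ) × Fin (2 ^ μ))) : Prop :=
  n ≤ (P.image (rowCell μ lam)).card + d ∧ n ≤ (P.image (colCell μ lam)).card + d

/-- The defects: `dft n E e = n / 16 + ∑_{e ≤ j < E} n / 2 ^ (j + 4)`. -/
def dft (n E e : ℕ) : ℕ := n / 16 + ∑ j ∈ Finset.Ico e E, n / 2 ^ (j + 4)

theorem dft_succ {n E e : ℕ} (h : e < E) : dft n E e = dft n E (e + 1) + n / 2 ^ (e + 4) := by
  rw [dft, dft, Finset.sum_eq_sum_Ico_succ_bot h]
  ring

theorem dft_last (n E : ℕ) : dft n E E = n / 16 := by simp [dft]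

theorem dft_zero_le (n E : ℕ) : 16 * dft n E 0 ≤ 3 * n := by
  have h1 : ∀ E : ℕ, 16 * (∑ j ∈ Finset.range E, n / 2 ^ (j + 4)) + 2 * (n / 2 ^ E) ≤ 2 * n := by
    intro E
    induction E with
    | zero => simp
    | succ E ih =>
      rw [Finset.sum_range_succ]
      have h2 : 16 * (n / 2 ^ (E + 4)) ≤ n / 2 ^ E := by
        rw [Nat.le_div_iff_mul_le (by positivity)]
        calc 16 * (n / 2 ^ (E + 4)) * 2 ^ E = (n / 2 ^ (E + 4)) * 2 ^ (E + 4) := by ring
          _ ≤ n := Nat.div_mul_le_self _ _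
      have h3 : 2 * (n / 2 ^ (E + 1)) ≤ n / 2 ^ E := by
        rw [Nat.le_div_iff_mul_le (by positivity)]
        calc 2 * (n / 2 ^ (E + 1)) * 2 ^ E = (n / 2 ^ (E + 1)) * 2 ^ (E + 1) := by ring
          _ ≤ n := Nat.div_mul_le_self _ _
      omega
  have h4 := h1 E
  rw [dft, ← Finset.range_eq_Ico]
  omega

/-- There are few row cells of level `lam`. -/
theorem card_rowCell_le (μ lam : ℕ) (hlam : lam ≤ μ)
    (P : Finset (Fin (2 ^ μ) × Fin (2 ^ μ))) :
    (P.image (rowCell μ lam)).card ≤ 2 ^ lam * 2 ^ μ := by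
  have h1 : P.image (rowCell μ lam) ⊆ (Finset.range (2 ^ lam)) ×ˢ Finset.univ := by
    intro y hy
    obtain ⟨x, -, rfl⟩ := Finset.mem_image.mp hy
    rw [Finset.mem_product, Finset.mem_range]
    refine ⟨?_, Finset.mem_univ _⟩
    simp only [rowCell, cls]
    rw [Nat.div_lt_iff_lt_mul (by positivity), ← pow_add]
    have : lam + (μ - lam) = μ := by omega
    rw [this]
    exact x.1.isLt
  refine (Finset.card_le_card h1).trans (le_of_eq ?_)
  rw [Finset.card_product, Finset.card_range, Finset.card_univ, Fintype.card_fin]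

/-- The set `P*` and the mates for a failure of level `e`. -/
theorem star_of_fail {μ l l' n d k : ℕ} {P : Finset (Fin (2 ^ μ) × Fin (2 ^ μ))}
    (hS : Spr μ l' n d P) (hF : ¬ Spr μ l n (d + k) P) :
    (∃ Pst ⊆ P, Pst.card = k ∧ Set.InjOn (colCell μ l') (Pst : Set (Fin (2 ^ μ) × Fin (2 ^ μ))) ∧
      ∀ a ∈ Pst, ∃ x ∈ P, x ≠ a ∧ rowCell μ l x = rowCell μ l a) ∨
    (∃ Pst ⊆ P, Pst.card = k ∧ Set.InjOn (rowCell μ l') (Pst : Set (Fin (2 ^ μ) × Fin (2 ^ μ))) ∧
      ∀ a ∈ Pst, ∃ x ∈ P, x ≠ a ∧ colCell μ l x = colCell μ l a) := by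
  classical
  obtain ⟨h1, h2⟩ := hS
  rw [Spr, not_and_or, not_le, not_le] at hF
  rcases hF with h | h
  · left
    exact exists_star _ _ P k (by omega)
  · right
    exact exists_star _ _ P k (by omega)

/-- **Descent.** Two sets of size `n = 4 · 2 ^ (lam 0) · 2 ^ μ` which are spread at level `E` have
a level at which one of them fails. -/
theorem descent {μ E n : ℕ} (lam : ℕ → ℕ) (hlam0 : lam 0 ≤ μ)
    (hn : n = 4 * 2 ^ lam 0 * 2 ^ μ) {A B : Finset (Fin (2 ^ μ) × Fin (2 ^ μ))}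
    (hA : Spr μ (lam E) n (n / 16) A) (hB : Spr μ (lam E) n (n / 16) B) :
    ∃ e < E, Spr μ (lam (e + 1)) n (dft n E (e + 1)) A ∧
      Spr μ (lam (e + 1)) n (dft n E (e + 1)) B ∧
      (¬ Spr μ (lam e) n (dft n E (e + 1) + n / 2 ^ (e + 4)) A ∨
        ¬ Spr μ (lam e) n (dft n E (e + 1) + n / 2 ^ (e + 4)) B) := by
  by_contra hcon
  push Not at hcon
  have hall : ∀ k ≤ E, Spr μ (lam (E - k)) n (dft n E (E - k)) A ∧
      Spr μ (lam (E - k)) n (dft n E (E - k)) B := by
    intro k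
    induction k with
    | zero =>
      intro _
      simp only [Nat.sub_zero, dft_last]
      exact ⟨hA, hB⟩
    | succ k ih =>
      intro hk
      obtain ⟨h1, h2⟩ := ih (by omega)
      have h3 : E - k = (E - (k + 1)) + 1 := by omega
      have h4 : E - (k + 1) < E := by omega
      rw [h3] at h1 h2
      have h5 := hcon _ h4 h1 h2
      rw [← dft_succ h4] at h5
      exact h5
  have h0 := (hall E le_rfl).1.1
  rw [Nat.sub_self] at h0
  have h1 := card_rowCell_le μ (lam 0) hlam0 A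
  have h2 := dft_zero_le n E
  have h3 : 0 < 2 ^ lam 0 * 2 ^ μ := by positivity
  have h4 : n = 4 * (2 ^ lam 0 * 2 ^ μ) := by rw [hn]; ring
  omega

end Pool.Agent.TH
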