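import Pool.Agent.H78.SM.Lower

namespace Pool.Agent.TH

open Finset Filter Asymptotics Pool.Agent.H78.SM

/-- `h` has a conflict for the pair of sets `A`, `B`. -/
def Conflict {V : Type*} (h : V → V → V) (A B : Finset V) : Prop :=
  ∃ x ∈ A, ∃ z ∈ B, (h x z ∈ A ∧ h x z ≠ x) ∨ (h z x ∈ B ∧ h z x ≠ z)

/-- The conflict property for all disjoint pairs of `n₀`-sets. -/
def AllConflict {V : Type*} (h : V → V → V) (n₀ : ℕ) : Prop :=
  ∀ A B : Finset V, A.card = n₀ → B.card = n₀ → Disjoint A B → Conflict h A B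

/-- A map with conflicts for all disjoint pairs of `n₀`-sets gives, for `n₀ ≤ n` and
`N ≤ |V|`, an admissible map of the edges of `K_N` without good copies of `K_{n,n}`. -/
theorem exists_bad_of_allConflict {V : Type*} [Fintype V] [DecidableEq V] {h : V → V → V}
    {n₀ n N : ℕ} (hh : AllConflict h n₀) (hn : n₀ ≤ n) (hN4 : 4 ≤ N)
    (hNV : N ≤ Fintype.card V) :
    ∃ f : Edge N → Edge N, Admissible f ∧
      ∀ φ : (Fin n ⊕ Fin n) ↪ Fin N, ¬ Good (completeBipartiteGraph (Fin n) (Fin n)) f φ := by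
  classical
  obtain ⟨ψ⟩ := Function.Embedding.nonempty_of_card_le
    (show Fintype.card (Fin N) ≤ Fintype.card V by simpa only [Fintype.card_fin] using hNV)
  -- the two partial targets of a pair
  have hex : ∀ e : Edge N, ∃ e' : Edge N, (∀ v : Fin N, v ∈ e.1 → v ∉ e'.1) ∧
      ∀ x z : Fin N, e.1 = s(x, z) → ∀ y : Fin N, (ψ y = h (ψ x) (ψ z) ∨ ψ y = h (ψ z) (ψ x)) →
        y ∉ e.1 → y ∈ e'.1 := by
    intro e
    obtain ⟨e, he⟩ := e
    induction e using Sym2.ind with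
    | _ a b =>
      obtain ⟨e', h1, h2⟩ := exists_edge hN4 s(a, b)
        (S := {y | ψ y = h (ψ a) (ψ b)}) (T := {y | ψ y = h (ψ b) (ψ a)})
        (by
          intro y hy y' hy'
          exact ψ.injective (hy.trans hy'.symm))
        (by
          intro y hy y' hy'
          exact ψ.injective (hy.trans hy'.symm))
      refine ⟨e', h1, ?_⟩
      intro x z hxz y hy hye
      apply h2 y _ hye
      simp only [Sym2.eq_iff] at hxz
      rcases hxz with ⟨rfl, rfl⟩ | ⟨rfl, rfl⟩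
      · exact hy
      · exact hy.symm
  choose f hf1 hf2 using hex
  refine ⟨f, hf1, fun φ hφ => ?_⟩
  have hle : n₀ ≤ (Finset.univ : Finset (Fin n)).card := by simpa using hn
  obtain ⟨I, -, hI⟩ := Finset.exists_subset_card_eq hle
  set A : Finset V := I.image (fun i : Fin n => ψ (φ (Sum.inl i))) with hA
  set B : Finset V := I.image (fun i : Fin n => ψ (φ (Sum.inr i))) with hB
  have hAc : A.card = n₀ := by
    rw [hA, Finset.card_image_of_injective, hI]
    intro x y hxy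
    exact Sum.inl_injective (φ.injective (ψ.injective hxy))
  have hBc : B.card = n₀ := by
    rw [hB, Finset.card_image_of_injective, hI]
    intro x y hxy
    exact Sum.inr_injective (φ.injective (ψ.injective hxy))
  have hAB : Disjoint A B := by
    rw [Finset.disjoint_left]
    intro z hz hz'
    obtain ⟨i, -, rfl⟩ := Finset.mem_image.mp hz
    obtain ⟨i', -, h⟩ := Finset.mem_image.mp hz'
    exact absurd (φ.injective (ψ.injective h)) (by simp)
  obtain ⟨x, hx, z, hz, hc⟩ := hh A B hAc hBc hAB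
  obtain ⟨i, -, rfl⟩ := Finset.mem_image.mp hx
  obtain ⟨i', -, rfl⟩ := Finset.mem_image.mp hz
  have hadj : (completeBipartiteGraph (Fin n) (Fin n)).Adj (Sum.inl i) (Sum.inr i') := by
    simp
  have hne : φ (Sum.inl i) ≠ φ (Sum.inr i') := by
    intro h
    exact absurd (φ.injective h) (by simp)
  set e : Edge N := ⟨s(φ (Sum.inl i), φ (Sum.inr i')), by simpa using hne⟩ with he
  have hmem : ∀ y : Fin N, (∃ w : Fin n ⊕ Fin n, φ w = y) → y ∈ (f e).1 → False := by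
    rintro y ⟨w, rfl⟩ hy
    exact hφ _ _ hadj e rfl w hy
  rcases hc with ⟨h1, h2⟩ | ⟨h1, h2⟩
  · obtain ⟨k, hk, hk'⟩ := Finset.mem_image.mp h1
    refine hmem (φ (Sum.inl k)) ⟨_, rfl⟩ (hf2 e _ _ rfl _ (Or.inl hk') ?_)
    simp only [he, Sym2.mem_iff, not_or]
    refine ⟨?_, ?_⟩
    · intro h3
      apply h2
      rw [← hk', h3]
    · intro h3
      exact absurd (φ.injective h3) (by simp)
  · obtain ⟨k, hk, hk'⟩ := Finset.mem_image.mp h1
    refine hmem (φ (Sum.inr k)) ⟨_, rfl⟩ (hf2 e _ _ rfl _ (Or.inr hk') ?_)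
    simp only [he, Sym2.mem_iff, not_or]
    refine ⟨?_, ?_⟩
    · intro h3
      exact absurd (φ.injective h3) (by simp)
    · intro h3
      apply h2
      rw [← hk', h3]

/-- The combinatorial statement of the lower bound. -/
def HStat (L₀ : ℕ) : Prop :=
  ∃ μ₀ : ℕ, ∀ μ : ℕ, μ₀ ≤ μ →
    ∃ h : (Fin (2 ^ μ) × Fin (2 ^ μ)) → (Fin (2 ^ μ) × Fin (2 ^ μ)) →
      (Fin (2 ^ μ) × Fin (2 ^ μ)), AllConflict h (4 * L₀ * 2 ^ μ)

theorem lower_of_hstat {L₀ : ℕ} (hL : 0 < L₀) (hH : HStat L₀) :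
    ∃ c : ℝ, 0 < c ∧ ∀ n : ℕ,
      c * (n : ℝ) ^ 2 ≤ (setMapping (completeBipartiteGraph (Fin n) (Fin n)) : ℝ) := by
  obtain ⟨μ₀, hμ⟩ := hH
  set n₁ : ℕ := 4 * L₀ * 2 ^ (μ₀ + 1) with hn₁
  have hn₁pos : 0 < n₁ := by positivity
  refine ⟨min (1 / (64 * (L₀ : ℝ) ^ 2)) (1 / (n₁ : ℝ)), by positivity, ?_⟩
  intro n
  rcases Nat.eq_zero_or_pos n with rfl | hn0
  · simp
  obtain ⟨hcard, hgood⟩ := hasGoodCopies_setMapping n hn0
  set N := setMapping (completeBipartiteGraph (Fin n) (Fin n)) with hN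
  rw [card_sum_fin] at hcard
  have hcR : 2 * (n : ℝ) ≤ N := by exact_mod_cast hcard
  have hn0R : (0 : ℝ) < n := by exact_mod_cast hn0
  by_cases hsmall : n < n₁
  · have h1 : (n : ℝ) ≤ n₁ := by exact_mod_cast hsmall.le
    have h2 : (0 : ℝ) < n₁ := by exact_mod_cast hn₁pos
    calc min (1 / (64 * (L₀ : ℝ) ^ 2)) (1 / (n₁ : ℝ)) * (n : ℝ) ^ 2
        ≤ 1 / (n₁ : ℝ) * (n : ℝ) ^ 2 := by
          apply mul_le_mul_of_nonneg_right (min_le_right _ _) (by positivity)
      _ = (n : ℝ) * (n / n₁) := by ring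
      _ ≤ (n : ℝ) * 1 := by
          apply mul_le_mul_of_nonneg_left _ hn0R.le
          rw [div_le_one h2]
          exact h1
      _ ≤ N := by linarith
  · push Not at hsmall
    -- the scale
    have hq1 : 2 ^ (μ₀ + 1) ≤ n / (4 * L₀) := by
      rw [Nat.le_div_iff_mul_le (by positivity)]
      calc 2 ^ (μ₀ + 1) * (4 * L₀) = n₁ := by rw [hn₁]; ring
        _ ≤ n := hsmall
    set q := n / (4 * L₀) with hq
    have hq0 : q ≠ 0 := by
      have : 0 < 2 ^ (μ₀ + 1) := by positivity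
      omega
    set μ := Nat.log 2 q with hμd
    have hμ1 : 2 ^ μ ≤ q := Nat.pow_log_le_self 2 hq0
    have hμ2 : q < 2 ^ (μ + 1) := Nat.lt_pow_succ_log_self (by norm_num) q
    have hμ0 : μ₀ ≤ μ := by
      have h1 : 2 ^ (μ₀ + 1) < 2 ^ (μ + 1) := lt_of_le_of_lt hq1 hμ2
      have h2 := (Nat.pow_lt_pow_iff_right (by norm_num : 1 < 2)).mp h1
      omega
    obtain ⟨h, hh⟩ := hμ μ hμ0
    have hn4 : 4 * L₀ * 2 ^ μ ≤ n := by
      calc 4 * L₀ * 2 ^ μ ≤ 4 * L₀ * q := Nat.mul_le_mul_left _ hμ1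
        _ ≤ n := Nat.mul_div_le n (4 * L₀)
    have hn8 : n < 4 * L₀ * 2 ^ (μ + 1) := by
      have := Nat.lt_mul_of_div_lt hμ2 (show 0 < 4 * L₀ by positivity)
      rwa [mul_comm] at this
    have hn4' : 4 ≤ n := by
      have : 0 < L₀ * 2 ^ μ := by positivity
      nlinarith
    have hlt : 2 ^ μ * 2 ^ μ < N := by
      by_contra hcon
      push Not at hcon
      obtain ⟨f, hf, hbad⟩ := exists_bad_of_allConflict (N := N) hh hn4 (by omega)
        (by simpa using hcon)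
      obtain ⟨φ, hφ⟩ := hgood f hf
      exact hbad φ hφ
    have h1 : ((2 : ℝ) ^ μ) * (2 : ℝ) ^ μ ≤ N := by exact_mod_cast hlt.le
    have h2 : (n : ℝ) ≤ 8 * L₀ * 2 ^ μ := by
      have : n ≤ 8 * L₀ * 2 ^ μ := by
        calc n ≤ 4 * L₀ * 2 ^ (μ + 1) := hn8.le
          _ = 8 * L₀ * 2 ^ μ := by ring
      exact_mod_cast this
    have hL0 : (0 : ℝ) < L₀ := by exact_mod_cast hL
    calc min (1 / (64 * (L₀ : ℝ) ^ 2)) (1 / (n₁ : ℝ)) * (n : ℝ) ^ 2
        ≤ 1 / (64 * (L₀ : ℝ) ^ 2) * (n : ℝ) ^ 2 := by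
          apply mul_le_mul_of_nonneg_right (min_le_left _ _) (by positivity)
      _ ≤ 1 / (64 * (L₀ : ℝ) ^ 2) * (8 * L₀ * 2 ^ μ) ^ 2 := by
          apply mul_le_mul_of_nonneg_left _ (by positivity)
          exact pow_le_pow_left₀ hn0R.le h2 2
      _ = (2 : ℝ) ^ μ * (2 : ℝ) ^ μ := by
          field_simp
          ring
      _ ≤ N := h1

/-- The final form: `w(K_{n,n}) = Θ(n²)`. -/
theorem isTheta_of_hstat {L₀ : ℕ} (hL : 0 < L₀) (hH : HStat L₀) :
    (fun n : ℕ => (setMapping (completeBipartiteGraph (Fin n) (Fin n)) : ℝ)) =Θ[atTop]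
      (fun n : ℕ => (n : ℝ) ^ 2) := by
  obtain ⟨c, hc, hlow⟩ := lower_of_hstat hL hH
  refine ⟨?_, ?_⟩
  · apply IsBigO.of_bound 96
    filter_upwards [eventually_gt_atTop 0] with n hn
    rw [Real.norm_of_nonneg (Nat.cast_nonneg _), Real.norm_of_nonneg (by positivity)]
    exact_mod_cast setMapping_le n hn
  · apply IsBigO.of_bound (1 / c)
    filter_upwards with n
    rw [Real.norm_of_nonneg (Nat.cast_nonneg _), Real.norm_of_nonneg (by positivity)]
    have := hlow n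
    rw [div_mul_eq_mul_div, one_mul, le_div_iff₀ hc]
    linarith

end Pool.Agent.TH
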